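import Pool.Agent.Work.CB2.Final
import Pool.Agent.Work.CB2.S2
import Pool.Agent.Work.CB2.S3

/-!
# The cubic and quartic systems are controlled by the quadratic system

Part A: the reciprocal volumes, the linear relations of the inner triangles, and finiteness.
-/

open scoped BigOperators
open Finset

noncomputable section

namespace Pool.CB

variable (Δ : TetComplex) (v : E3)

/-- The reciprocal of the volume of a tetrahedron at `v`. -/
def qc_e (p q a : E3) : ℝ := if ({v, p, q, a} : Finset E3) ∈ Δ.tets then 1 / |dt v p q a| else 0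

theorem qc_e_tet {p q a : E3} (h : ({v, p, q, a} : Finset E3) ∈ Δ.tets) :
    qc_e Δ v p q a = 1 / |dt v p q a| := if_pos h

theorem qc_e_not {p q a : E3} (h : ({v, p, q, a} : Finset E3) ∉ Δ.tets) :
    qc_e Δ v p q a = 0 := if_neg h

theorem qc_e_pos {p q a : E3} (h : ({v, p, q, a} : Finset E3) ∈ Δ.tets) :
    0 < qc_e Δ v p q a := by
  rw [qc_e_tet Δ v h]
  exact one_div_pos.2 (abs_pos.2 (s2_dt_ne Δ v h))

theorem qc_e_swap (p q a : E3) : qc_e Δ v q p a = qc_e Δ v p q a := by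
  unfold qc_e
  rw [s2_swap_tet v q p a, s2_dt_swap v p q a, abs_neg]

theorem qc_e_swap' (p q a : E3) : qc_e Δ v p a q = qc_e Δ v p q a := by
  unfold qc_e
  rw [s2_swap_tet' v p a q, s2_dt_swap' v p q a, abs_neg]

theorem qc_not_face {p q : E3} (h : ({v, p, q} : Finset E3) ∉ FF Δ.tets 3) (a : E3) :
    ({v, p, q, a} : Finset E3) ∉ Δ.tets := by
  intro ha
  obtain ⟨h1, h2, h3, h4, h5, h6⟩ := four_ne (isFan Δ) ha
  refine h (mem_FF.2 ⟨⟨_, ha, ?_⟩, Finset.card_eq_three.2 ⟨v, p, q, h1, h2, h4, rfl⟩⟩)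
  intro x
  simp only [Finset.mem_insert, Finset.mem_singleton]
  tauto

theorem qc_not_inn {p q : E3} (h : ({v, p, q} : Finset E3) ∉ FF Δ.tets 3) :
    ¬ InnG Δ.tets {v, p, q} := fun hh => h hh.1

/-- Sums over the tetrahedra of an inner triangle. -/
theorem qc_sum_two {p q a b : E3} (hab : a ≠ b) (ha : ({v, p, q, a} : Finset E3) ∈ Δ.tets)
    (hb : ({v, p, q, b} : Finset E3) ∈ Δ.tets) (F : E3 → ℝ) :
    ∑ x ∈ VV Δ.tets, qc_e Δ v p q x * F x = qc_e Δ v p q a * F a + qc_e Δ v p q b * F b := by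
  rw [← s2_sum_two Δ v hab ha hb (fun x => qc_e Δ v p q x * F x)]
  refine Finset.sum_congr rfl fun x _ => ?_
  split_ifs with h
  · rfl
  · rw [qc_e_not Δ v h, zero_mul]

/-- The relation of an inner triangle. -/
theorem qc_rel {p q a b : E3} (hab : a ≠ b) (ha : ({v, p, q, a} : Finset E3) ∈ Δ.tets)
    (hb : ({v, p, q, b} : Finset E3) ∈ Δ.tets) :
    qc_e Δ v p q a • (a - v) + qc_e Δ v p q b • (b - v)
      = s2_C Δ v p q • (p - v) + s2_C Δ v q p • (q - v) := by
  obtain ⟨h1, h2, h3, h4, h5, h6⟩ := four_ne (isFan Δ) ha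
  obtain ⟨g1, g2, g3, g4, g5, g6⟩ := four_ne (isFan Δ) hb
  have hn : InnG Δ.tets {v, p, q} := (s2_inn Δ v).2 ⟨a, b, hab, ha, hb⟩
  have h7 := ((s2_mem_Rel Δ v).1 (s2_R_mem Δ v h4 hn)).2
  have hsub : (s2_R Δ v p q).support ⊆ {p, q, a, b} := by
    intro x hx
    by_contra hne
    simp only [Finset.mem_insert, Finset.mem_singleton, not_or] at hne
    refine (Finsupp.mem_support_iff.1 hx) (s2_R_other Δ v hne.1 hne.2.1 fun hh => ?_)
    rcases s2_third Δ v hab ha hb hh with h | h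
    · exact hne.2.2.1 h
    · exact hne.2.2.2 h
  rw [Finsupp.sum_of_support_subset _ hsub _ (fun x _ => by simp),
    Finset.sum_insert (by simp [h4, h5, g5]), Finset.sum_insert (by simp [h6, g6]),
    Finset.sum_pair hab, s2_R_left, s2_R_right Δ v h4, s2_R_tet Δ v ha, s2_R_tet Δ v hb,
    ← qc_e_tet Δ v ha, ← qc_e_tet Δ v hb] at h7
  have h8 : qc_e Δ v p q a • (a - v) + qc_e Δ v p q b • (b - v)
      - (s2_C Δ v p q • (p - v) + s2_C Δ v q p • (q - v)) = 0 := by
    rw [← h7]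
    module
  exact sub_eq_zero.1 h8

/-- The coordinate functions. -/
def qc_U (i : Fin 3) (p : E3) : ℝ := p i - v i

theorem qc_lin (i : Fin 3) {p q : E3} (hn : InnG Δ.tets {v, p, q}) :
    ∑ a ∈ VV Δ.tets, qc_e Δ v p q a * qc_U v i a
      = s2_C Δ v p q * qc_U v i p + s2_C Δ v q p * qc_U v i q := by
  obtain ⟨a, b, hab, ha, hb⟩ := (s2_inn Δ v).1 hn
  rw [qc_sum_two Δ v hab ha hb]
  have := congrFun (qc_rel Δ v hab ha hb) i
  simpa [qc_U] using this

theorem qc_lin_mul (i : Fin 3) {p q : E3} {c : ℝ} (hc : ¬ InnG Δ.tets {v, p, q} → c = 0) :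
    c * ∑ a ∈ VV Δ.tets, qc_e Δ v p q a * qc_U v i a
      = c * (s2_C Δ v p q * qc_U v i p + s2_C Δ v q p * qc_U v i q) := by
  by_cases hn : InnG Δ.tets {v, p, q}
  · rw [qc_lin Δ v i hn]
  · rw [hc hn, zero_mul, zero_mul]

theorem qc_bal {c : E3 → ℝ} : ∑ q ∈ VV Δ.tets, c q • (q - v) = 0 ↔
    ∀ i, ∑ q ∈ VV Δ.tets, c q * qc_U v i q = 0 := by
  constructor
  · intro h i
    have := congrFun h i
    simpa [qc_U, Finset.sum_apply] using this
  · intro h
    funext i
    have := h i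
    simpa [qc_U, Finset.sum_apply] using this

/-- Finiteness. -/
theorem qc_fin (M : Submodule ℝ (E3 → E3 → ℝ))
    (hM : ∀ w ∈ M, ∀ p q, w p q ≠ 0 → p ∈ VV Δ.tets ∧ q ∈ VV Δ.tets) : Module.Finite ℝ M := by
  let f : M →ₗ[ℝ] ((VV Δ.tets) → (VV Δ.tets) → ℝ) :=
    { toFun := fun w p q => w.1 p q
      map_add' := fun _ _ => rfl
      map_smul' := fun _ _ => rfl }
  have hf : Function.Injective f := by
    refine (injective_iff_map_eq_zero f).2 ?_
    rintro ⟨w, hw⟩ h0
    refine Subtype.ext ?_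
    change w = 0
    funext p q
    by_contra hne
    obtain ⟨hp, hq⟩ := hM w hw p q hne
    exact hne (congrFun (congrFun h0 ⟨p, hp⟩) ⟨q, hq⟩)
  exact Module.Finite.of_injective f hf

theorem qc_face_VV {p q : E3} (h : ({v, p, q} : Finset E3) ∈ FF Δ.tets 3) :
    p ∈ VV Δ.tets ∧ q ∈ VV Δ.tets := by
  obtain ⟨⟨t, ht, hs⟩, -⟩ := mem_FF.1 h
  exact ⟨mem_VV.2 ⟨t, ht, hs (by simp)⟩, mem_VV.2 ⟨t, ht, hs (by simp)⟩⟩

theorem qc_fin_Omega : Module.Finite ℝ (OmegaG Δ.tets v (fun q => q - v)) := by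
  refine qc_fin Δ _ fun w hw p q hne => ?_
  refine qc_face_VV Δ v ?_
  by_contra hn
  exact hne (hw.2.1 p q hn)

theorem qc_fin_Sigma : Module.Finite ℝ (SigmaG Δ.tets v (dt v) (fun q => q - v)) := by
  refine qc_fin Δ _ fun w hw p q hne => ?_
  refine qc_face_VV Δ v ?_
  by_contra hn
  exact hne (hw.2.1 p q (qc_not_inn Δ v hn))

/-! ### Quartic systems -/

/-- From quartic to cubic. -/
def qc_S (F : E3 → ℝ) : (E3 → E3 → ℝ) →ₗ[ℝ] (E3 → E3 → ℝ) where
  toFun θ p q := F p * θ p q + F q * θ q p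
  map_add' θ θ' := by
    funext p q
    simp only [Pi.add_apply]
    ring
  map_smul' c θ := by
    funext p q
    simp only [Pi.smul_apply, smul_eq_mul, RingHom.id_apply]
    ring

theorem qc_S_apply (F : E3 → ℝ) (θ : E3 → E3 → ℝ) (p q : E3) :
    qc_S F θ p q = F p * θ p q + F q * θ q p := rfl

/-- The symmetric double sum vanishes. -/
theorem qc_X_zero {θ : E3 → E3 → ℝ} (h1 : ∀ p q, ¬ InnG Δ.tets {v, p, q} → θ p q = 0)
    (h2 : ∀ p q r, ({v, p, q, r} : Finset E3) ∈ Δ.tets → θ p q + θ p r = 0)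
    (h4 : ∀ (p : E3) (i : Fin 3), ∑ q ∈ VV Δ.tets, θ p q * s2_C Δ v p q * qc_U v i q = 0)
    (p : E3) (i j : Fin 3) :
    ∑ q ∈ VV Δ.tets, θ p q * s2_C Δ v q p * qc_U v i q * qc_U v j q = 0 := by
  have key : ∀ i j : Fin 3, ∑ q ∈ VV Δ.tets, θ p q * s2_C Δ v q p * qc_U v i q * qc_U v j q
      = ∑ q ∈ VV Δ.tets, ∑ a ∈ VV Δ.tets, θ p q * qc_e Δ v p q a * (qc_U v i q * qc_U v j a) := by
    intro i j
    have e1 : ∀ q ∈ VV Δ.tets,
        ∑ a ∈ VV Δ.tets, θ p q * qc_e Δ v p q a * (qc_U v i q * qc_U v j a)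
        = θ p q * s2_C Δ v q p * qc_U v i q * qc_U v j q
          + qc_U v j p * (θ p q * s2_C Δ v p q * qc_U v i q) := by
      intro q _
      have e2 := qc_lin_mul Δ v j (c := θ p q) (h1 p q)
      calc ∑ a ∈ VV Δ.tets, θ p q * qc_e Δ v p q a * (qc_U v i q * qc_U v j a)
          = qc_U v i q * (θ p q * ∑ a ∈ VV Δ.tets, qc_e Δ v p q a * qc_U v j a) := by
            rw [Finset.mul_sum, Finset.mul_sum]
            refine Finset.sum_congr rfl fun a _ => ?_
            ring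
        _ = _ := by
            rw [e2]
            ring
    rw [Finset.sum_congr rfl e1, Finset.sum_add_distrib, ← Finset.mul_sum, h4 p i, mul_zero,
      add_zero]
  have h5 : ∑ q ∈ VV Δ.tets, θ p q * s2_C Δ v q p * qc_U v i q * qc_U v j q
      = - ∑ q ∈ VV Δ.tets, θ p q * s2_C Δ v q p * qc_U v j q * qc_U v i q := by
    rw [key i j, key j i, Finset.sum_comm, ← Finset.sum_neg_distrib]
    refine Finset.sum_congr rfl fun a _ => ?_
    rw [← Finset.sum_neg_distrib]
    refine Finset.sum_congr rfl fun q _ => ?_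
    rw [qc_e_swap' Δ v p a q]
    by_cases ht : ({v, p, a, q} : Finset E3) ∈ Δ.tets
    · have h6 := h2 p a q ht
      have h7 : θ p q = - θ p a := by linarith
      rw [h7]
      ring
    · rw [qc_e_not Δ v ht]
      ring
  have h8 : ∑ q ∈ VV Δ.tets, θ p q * s2_C Δ v q p * qc_U v j q * qc_U v i q
      = ∑ q ∈ VV Δ.tets, θ p q * s2_C Δ v q p * qc_U v i q * qc_U v j q :=
    Finset.sum_congr rfl fun q _ => by ring
  rw [h8] at h5
  linarith

theorem qc_S_mem (i : Fin 3) {θ : E3 → E3 → ℝ}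
    (hθ : θ ∈ ThetaG Δ.tets v (dt v) (fun q => q - v)) :
    qc_S (qc_U v i) θ ∈ SigmaG Δ.tets v (dt v) (fun q => q - v) := by
  obtain ⟨h1, h2, h3, h4⟩ := hθ
  have h4' : ∀ (p : E3) (j : Fin 3), ∑ q ∈ VV Δ.tets, θ p q * s2_C Δ v p q * qc_U v j q = 0 :=
    fun p => (qc_bal Δ v).1 (h4 p)
  refine ⟨fun p q => ?_, fun p q hn => ?_, fun p q r ht => ?_, fun p => ?_⟩
  · rw [qc_S_apply, qc_S_apply]
    ring
  · rw [qc_S_apply, h1 p q hn, h1 q p (by rwa [s2_swap_face v q p]), mul_zero, mul_zero, add_zero]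
  · rw [qc_S_apply, qc_S_apply, qc_S_apply]
    have e1 := h2 p q r ht
    have e2 := h2 q p r (s2_swap_tet v p q r ▸ ht)
    have e3 := h2 r p q (by
      have : ({v, r, p, q} : Finset E3) = {v, p, q, r} := by
        ext x; simp only [Finset.mem_insert, Finset.mem_singleton]; tauto
      rw [this]; exact ht)
    linear_combination qc_U v i p * e1 + qc_U v i q * e2 + qc_U v i r * e3
  · refine (qc_bal Δ v).2 fun j => ?_
    change ∑ q ∈ VV Δ.tets, qc_S (qc_U v i) θ p q * s2_C Δ v p q * qc_U v j q = 0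
    have e1 : ∀ q ∈ VV Δ.tets, qc_S (qc_U v i) θ p q * s2_C Δ v p q * qc_U v j q
        = qc_U v i p * (θ p q * s2_C Δ v p q * qc_U v j q)
          - θ p q * s2_C Δ v q p * qc_U v i q * qc_U v j q := by
      intro q _
      have e2 : s2_C Δ v q p * θ p q + s2_C Δ v p q * θ q p = 0 := h3 p q
      rw [qc_S_apply]
      linear_combination (qc_U v i q * qc_U v j q) * e2
    rw [Finset.sum_congr rfl e1, Finset.sum_sub_distrib, ← Finset.mul_sum, h4' p j, mul_zero,
      qc_X_zero Δ v h1 h2 h4' p i j, sub_zero]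

theorem qc_quartic : Module.finrank ℝ (ThetaG Δ.tets v (dt v) (fun q => q - v))
    ≤ 3 * Module.finrank ℝ (SigmaG Δ.tets v (dt v) (fun q => q - v)) := by
  haveI := qc_fin_Sigma Δ v
  let f : ThetaG Δ.tets v (dt v) (fun q => q - v) →ₗ[ℝ]
      (Fin 3 → SigmaG Δ.tets v (dt v) (fun q => q - v)) :=
    LinearMap.pi fun i => (qc_S (qc_U v i)).restrict fun θ hθ => qc_S_mem Δ v i hθ
  have hf : Function.Injective f := by
    refine (injective_iff_map_eq_zero f).2 ?_
    rintro ⟨θ, hθ⟩ h0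
    refine Subtype.ext ?_
    change θ = 0
    have h1 : ∀ i p q, qc_U v i p * θ p q + qc_U v i q * θ q p = 0 := by
      intro i p q
      have := congrArg Subtype.val (congrFun h0 i)
      exact congrFun (congrFun this p) q
    funext p q
    by_cases hn : InnG Δ.tets {v, p, q}
    · obtain ⟨a, b, hab, ha, hb⟩ := (s2_inn Δ v).1 hn
      refine (s2_ind Δ v ha (x := θ p q) (y := θ q p) (z := 0) ?_).1
      funext i
      have := h1 i p q
      simp only [Pi.add_apply, Pi.smul_apply, Pi.sub_apply, smul_eq_mul, zero_mul, add_zero,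
        Pi.zero_apply]
      unfold qc_U at this
      linarith
    · exact hθ.1 p q hn
  have := LinearMap.finrank_le_finrank_of_injective hf
  rwa [Module.finrank_pi_fintype, Finset.sum_const, Finset.card_univ, Fintype.card_fin,
    smul_eq_mul] at this

/-! ### Cubic systems -/

/-- From cubic to quadratic. -/
def qc_W (F : E3 → ℝ) : (E3 → E3 → ℝ) →ₗ[ℝ] (E3 → E3 → ℝ) where
  toFun s p q := ∑ a ∈ VV Δ.tets, s p a * (qc_e Δ v p q a * F a)
    + s p q * (2 * s2_C Δ v p q * F p - s2_C Δ v q p * F q)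
  map_add' s s' := by
    funext p q
    simp only [Pi.add_apply, add_mul, Finset.sum_add_distrib]
    ring
  map_smul' c s := by
    funext p q
    simp only [Pi.smul_apply, smul_eq_mul, RingHom.id_apply, mul_assoc, ← Finset.mul_sum]
    ring

theorem qc_W_apply (F : E3 → ℝ) (s : E3 → E3 → ℝ) (p q : E3) :
    qc_W Δ v F s p q = ∑ a ∈ VV Δ.tets, s p a * (qc_e Δ v p q a * F a)
      + s p q * (2 * s2_C Δ v p q * F p - s2_C Δ v q p * F q) := rfl

theorem qc_W_mem (i : Fin 3) {s : E3 → E3 → ℝ}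
    (hs : s ∈ SigmaG Δ.tets v (dt v) (fun q => q - v)) :
    qc_W Δ v (qc_U v i) s ∈ OmegaG Δ.tets v (fun q => q - v) := by
  obtain ⟨h1, h2, h3, h4⟩ := hs
  have h4' : ∀ (p : E3) (j : Fin 3), ∑ q ∈ VV Δ.tets, s p q * s2_C Δ v p q * qc_U v j q = 0 :=
    fun p => (qc_bal Δ v).1 (h4 p)
  refine ⟨fun p q => ?_, fun p q hn => ?_, fun p => ?_⟩
  · rw [qc_W_apply, qc_W_apply]
    have e1 : ∑ a ∈ VV Δ.tets, s p a * (qc_e Δ v p q a * qc_U v i a)
        + ∑ a ∈ VV Δ.tets, s q a * (qc_e Δ v q p a * qc_U v i a)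
        = - (s p q * ∑ a ∈ VV Δ.tets, qc_e Δ v p q a * qc_U v i a) := by
      rw [← Finset.sum_add_distrib, Finset.mul_sum, ← Finset.sum_neg_distrib]
      refine Finset.sum_congr rfl fun a _ => ?_
      rw [qc_e_swap Δ v p q a]
      by_cases ht : ({v, p, q, a} : Finset E3) ∈ Δ.tets
      · have e2 := h3 p q a ht
        rw [h1 a p] at e2
        linear_combination (qc_e Δ v p q a * qc_U v i a) * e2
      · rw [qc_e_not Δ v ht]
        ring
    rw [qc_lin_mul Δ v i (h2 p q)] at e1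
    rw [h1 q p]
    linear_combination e1
  · rw [qc_W_apply, h2 p q (qc_not_inn Δ v hn), zero_mul, add_zero]
    refine Finset.sum_eq_zero fun a _ => ?_
    rw [qc_e_not Δ v (qc_not_face Δ v hn a)]
    ring
  · refine (qc_bal Δ v).2 fun j => ?_
    have e0 : ∀ a ∈ VV Δ.tets,
        ∑ q ∈ VV Δ.tets, s p a * (qc_e Δ v p q a * qc_U v i a) * qc_U v j q
        = qc_U v j p * (s p a * s2_C Δ v p a * qc_U v i a)
          + s p a * s2_C Δ v a p * qc_U v i a * qc_U v j a := by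
      intro a _
      have e2 := qc_lin_mul Δ v j (c := s p a) (h2 p a)
      calc ∑ q ∈ VV Δ.tets, s p a * (qc_e Δ v p q a * qc_U v i a) * qc_U v j q
          = qc_U v i a * (s p a * ∑ q ∈ VV Δ.tets, qc_e Δ v p a q * qc_U v j q) := by
            rw [Finset.mul_sum, Finset.mul_sum]
            refine Finset.sum_congr rfl fun q _ => ?_
            rw [qc_e_swap' Δ v p q a]
            ring
        _ = _ := by
            rw [e2]
            ring
    have e1 : ∑ q ∈ VV Δ.tets, qc_W Δ v (qc_U v i) s p q * qc_U v j q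
        = ∑ a ∈ VV Δ.tets, ∑ q ∈ VV Δ.tets, s p a * (qc_e Δ v p q a * qc_U v i a) * qc_U v j q
          + ∑ q ∈ VV Δ.tets, (2 * qc_U v i p * (s p q * s2_C Δ v p q * qc_U v j q)
            - s p q * s2_C Δ v q p * qc_U v i q * qc_U v j q) := by
      rw [Finset.sum_comm, ← Finset.sum_add_distrib]
      refine Finset.sum_congr rfl fun q _ => ?_
      rw [qc_W_apply, add_mul, Finset.sum_mul]
      ring
    rw [e1, Finset.sum_congr rfl e0, Finset.sum_add_distrib, Finset.sum_sub_distrib,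
      ← Finset.mul_sum, ← Finset.mul_sum, h4' p i, h4' p j]
    ring

end Pool.CB
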