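import Pool.Agent.Work.CB3.A

/-!
# The cubic and quartic systems are controlled by the quadratic system

Part B: the solutions of the cubic system which do not come from the quadratic system.
-/

open scoped BigOperators
open Finset

noncomputable section

namespace Pool.CB

variable (Δ : TetComplex) (v : E3)

/-- The kernel conditions at an inner triangle. -/
theorem qc_K_vec {s : E3 → E3 → ℝ} (hK : ∀ i p q, qc_W Δ v (qc_U v i) s p q = 0)
    {p q a b : E3} (hab : a ≠ b) (ha : ({v, p, q, a} : Finset E3) ∈ Δ.tets)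
    (hb : ({v, p, q, b} : Finset E3) ∈ Δ.tets) :
    s p a = s p b ∧ (s p a + 2 * s p q) * s2_C Δ v p q = 0
      ∧ (s p a - s p q) * s2_C Δ v q p = 0 := by
  have h1 : ∀ i, s p a * (qc_e Δ v p q a * qc_U v i a) + s p b * (qc_e Δ v p q b * qc_U v i b)
      + s p q * (2 * s2_C Δ v p q * qc_U v i p - s2_C Δ v q p * qc_U v i q) = 0 := by
    intro i
    have h2 := hK i p q
    rw [qc_W_apply] at h2
    have h3 : ∑ x ∈ VV Δ.tets, s p x * (qc_e Δ v p q x * qc_U v i x)
        = ∑ x ∈ VV Δ.tets, qc_e Δ v p q x * (s p x * qc_U v i x) :=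
      Finset.sum_congr rfl fun x _ => by ring
    rw [h3, qc_sum_two Δ v hab ha hb] at h2
    linarith
  have h4 : ∀ i, qc_e Δ v p q a * qc_U v i a + qc_e Δ v p q b * qc_U v i b
      = s2_C Δ v p q * qc_U v i p + s2_C Δ v q p * qc_U v i q := by
    intro i
    have := congrFun (qc_rel Δ v hab ha hb) i
    simpa [qc_U] using this
  obtain ⟨g1, g2, g3⟩ := s2_ind Δ v ha (x := (s p b + 2 * s p q) * s2_C Δ v p q)
    (y := (s p b - s p q) * s2_C Δ v q p) (z := (s p a - s p b) * qc_e Δ v p q a) (by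
      funext i
      have h5 := h1 i
      have h6 := h4 i
      simp only [Pi.add_apply, Pi.smul_apply, Pi.sub_apply, smul_eq_mul, Pi.zero_apply]
      unfold qc_U at h5 h6
      linear_combination h5 - s p b * h6)
  have h7 : s p a = s p b := by
    rcases mul_eq_zero.1 g3 with h | h
    · linarith
    · exact absurd h (qc_e_pos Δ v ha).ne'
  rw [h7]
  exact ⟨rfl, g1, g2⟩

/-- The kernel conditions at a boundary triangle. -/
theorem qc_K_bd {s : E3 → E3 → ℝ} (hs2 : ∀ p q, ¬ InnG Δ.tets {v, p, q} → s p q = 0)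
    (hK : ∀ i p q, qc_W Δ v (qc_U v i) s p q = 0)
    {p q a : E3} (ha : ({v, p, q, a} : Finset E3) ∈ Δ.tets) (hn : ¬ InnG Δ.tets {v, p, q}) :
    s p a = 0 := by
  have h1 : ∀ i, s p a * (qc_e Δ v p q a * qc_U v i a) = 0 := by
    intro i
    have h2 := hK i p q
    rw [qc_W_apply, hs2 p q hn, zero_mul, add_zero,
      Finset.sum_eq_single_of_mem a (s2_mem_VV Δ v ha)] at h2
    · exact h2
    · intro x _ hxa
      by_cases hx : ({v, p, q, x} : Finset E3) ∈ Δ.tets
      · exact absurd ((s2_inn Δ v).2 ⟨x, a, hxa, hx, ha⟩) hn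
      · rw [qc_e_not Δ v hx]
        ring
  obtain ⟨-, -, g3⟩ := s2_ind Δ v ha (x := 0) (y := 0) (z := s p a * qc_e Δ v p q a) (by
      funext i
      have h5 := h1 i
      simp only [Pi.add_apply, Pi.smul_apply, Pi.sub_apply, smul_eq_mul, Pi.zero_apply]
      unfold qc_U at h5
      linear_combination h5)
  rcases mul_eq_zero.1 g3 with h | h
  · exact h
  · exact absurd h (qc_e_pos Δ v ha).ne'

/-- The difference. -/
def qc_d (s : E3 → E3 → ℝ) (p q : E3) : ℝ :=
  (1 / 2) * ∑ a ∈ VV Δ.tets, if ({v, p, q, a} : Finset E3) ∈ Δ.tets then s p a - s q a else 0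

theorem qc_d_anti (s : E3 → E3 → ℝ) (p q : E3) : qc_d Δ v s q p = - qc_d Δ v s p q := by
  unfold qc_d
  rw [← mul_neg, ← Finset.sum_neg_distrib]
  congr 1
  refine Finset.sum_congr rfl fun a _ => ?_
  rw [s2_swap_tet v q p a]
  split_ifs
  · ring
  · simp

section kernel

variable {s : E3 → E3 → ℝ} (hs : s ∈ SigmaG Δ.tets v (dt v) (fun q => q - v))
  (hK : ∀ i p q, qc_W Δ v (qc_U v i) s p q = 0)

include hs hK

theorem qc_d_not_inn {p q : E3} (hn : ¬ InnG Δ.tets {v, p, q}) : qc_d Δ v s p q = 0 := by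
  unfold qc_d
  rw [Finset.sum_eq_zero, mul_zero]
  intro x _
  split_ifs with hx
  · rw [qc_K_bd Δ v hs.2.1 hK hx hn, qc_K_bd Δ v hs.2.1 hK (s2_swap_tet v p q x ▸ hx)
      (s2_swap_face v p q ▸ hn), sub_zero]
  · rfl

theorem qc_F1 {p q a : E3} (ha : ({v, p, q, a} : Finset E3) ∈ Δ.tets) :
    qc_d Δ v s p q = s p a - s q a := by
  by_cases hn : InnG Δ.tets {v, p, q}
  · obtain ⟨a0, b0, hab, ha0, hb0⟩ := (s2_inn Δ v).1 hn
    have h1 := (qc_K_vec Δ v hK hab ha0 hb0).1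
    have h2 := (qc_K_vec Δ v hK hab (s2_swap_tet v p q a0 ▸ ha0) (s2_swap_tet v p q b0 ▸ hb0)).1
    unfold qc_d
    rw [s2_sum_two Δ v hab ha0 hb0 (fun x => s p x - s q x)]
    rcases s2_third Δ v hab ha0 hb0 ha with h | h
    · rw [h]
      linarith
    · rw [h]
      linarith
  · rw [qc_d_not_inn Δ v hs hK hn, qc_K_bd Δ v hs.2.1 hK ha hn,
      qc_K_bd Δ v hs.2.1 hK (s2_swap_tet v p q a ▸ ha) (s2_swap_face v p q ▸ hn), sub_zero]

theorem qc_F2 (p q : E3) : (qc_d Δ v s p q + 3 * s p q) * s2_C Δ v p q = 0 := by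
  by_cases hn : InnG Δ.tets {v, p, q}
  · obtain ⟨a, b, hab, ha, hb⟩ := (s2_inn Δ v).1 hn
    have h1 := (qc_K_vec Δ v hK hab ha hb).2.1
    have h2 := qc_F1 Δ v hs hK ha
    have h3 := hs.2.2.1 p q a ha
    rw [hs.1 a p] at h3
    rw [h2]
    linear_combination 2 * h1 - s2_C Δ v p q * h3
  · rw [s2_C_zero Δ v hn, mul_zero]

theorem qc_F3 (p q : E3) : (qc_d Δ v s p q - 3 * s p q) * s2_C Δ v q p = 0 := by
  have h := qc_F2 Δ v hs hK q p
  rw [qc_d_anti, hs.1 q p] at h
  linear_combination - h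

/-- The change of the triangle. -/
theorem qc_F4 {p q a : E3} (ha : ({v, p, q, a} : Finset E3) ∈ Δ.tets) :
    qc_d Δ v s p q = (3 * s p a + qc_d Δ v s p a) / 2 := by
  have h1 := qc_F1 Δ v hs hK ha
  have h2 := qc_F1 Δ v hs hK (s2_swap_tet' v p q a ▸ ha)
  have h3 := hs.2.2.1 p q a ha
  rw [hs.1 a p] at h3
  rw [hs.1 a q] at h2
  rw [h1, h2]
  linear_combination (-(1 : ℝ) / 2) * h3

end kernel

/-! ### The norm -/

/-- The Euclidean norm of `a - v`. -/
def qc_N (a : E3) : ℝ := ‖(WithLp.toLp 2 (a - v) : EuclideanSpace ℝ (Fin 3))‖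

/-- The defect of the norm at a triangle. -/
def qc_m (p q : E3) : ℝ := ∑ a ∈ VV Δ.tets, qc_e Δ v p q a * qc_N v a
  - s2_C Δ v p q * qc_N v p - s2_C Δ v q p * qc_N v q

theorem qc_m_swap (p q : E3) : qc_m Δ v q p = qc_m Δ v p q := by
  unfold qc_m
  rw [Finset.sum_congr rfl fun a _ => by rw [qc_e_swap Δ v p q a]]
  ring

theorem qc_m_pos_aux {p q a b : E3} (hab : a ≠ b) (ha : ({v, p, q, a} : Finset E3) ∈ Δ.tets)
    (hb : ({v, p, q, b} : Finset E3) ∈ Δ.tets) (h0 : s2_C Δ v q p = 0) : 0 < qc_m Δ v p q := by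
  have ea := qc_e_pos Δ v ha
  have eb := qc_e_pos Δ v hb
  have h1 := qc_rel Δ v hab ha hb
  rw [h0, zero_smul, add_zero] at h1
  unfold qc_m
  rw [qc_sum_two Δ v hab ha hb, h0, zero_mul, sub_zero]
  have h2 : qc_e Δ v p q a • (WithLp.toLp 2 (a - v) : EuclideanSpace ℝ (Fin 3))
      + qc_e Δ v p q b • (WithLp.toLp 2 (b - v) : EuclideanSpace ℝ (Fin 3))
      = s2_C Δ v p q • (WithLp.toLp 2 (p - v) : EuclideanSpace ℝ (Fin 3)) := by
    rw [← WithLp.toLp_smul, ← WithLp.toLp_smul, ← WithLp.toLp_smul, ← WithLp.toLp_add, h1]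
  have h3 : ¬ SameRay ℝ (qc_e Δ v p q a • (WithLp.toLp 2 (a - v) : EuclideanSpace ℝ (Fin 3)))
      (qc_e Δ v p q b • (WithLp.toLp 2 (b - v) : EuclideanSpace ℝ (Fin 3))) := by
    have key : ∀ x y : ℝ, x • (a - v) = y • (b - v) →
        x * dt v p q a = y * dt v p q b := by
      intro x y hxy
      have e0 := congrFun hxy 0
      have e1 := congrFun hxy 1
      have e2 := congrFun hxy 2
      simp only [Pi.smul_apply, Pi.sub_apply, smul_eq_mul] at e0 e1 e2
      rw [s2_dt, s2_dt]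
      linear_combination ((p 0 - v 0) * (q 1 - v 1) - (p 1 - v 1) * (q 0 - v 0)) * e2
        + ((p 2 - v 2) * (q 0 - v 0) - (p 0 - v 0) * (q 2 - v 2)) * e1
        + ((p 1 - v 1) * (q 2 - v 2) - (p 2 - v 2) * (q 1 - v 1)) * e0
    have hda := s2_dt_ne Δ v ha
    have hdb := s2_dt_ne Δ v hb
    have hop := s2_dt_opp Δ v ha hb hab
    have h4 : ∀ x y : ℝ, 0 ≤ x → 0 ≤ y → x • (a - v) = y • (b - v) → x = 0 ∧ y = 0 := by
      intro x y hx hy hxy
      have h5 := key x y hxy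
      have h6 : x * (dt v p q a * dt v p q a) = y * (dt v p q a * dt v p q b) := by
        linear_combination dt v p q a * h5
      have h7 : 0 < dt v p q a * dt v p q a := mul_self_pos.2 hda
      have hx0 : x = 0 := by
        by_contra hne
        have hx' : 0 < x := lt_of_le_of_ne hx (Ne.symm hne)
        have : 0 < x * (dt v p q a * dt v p q a) := mul_pos hx' h7
        nlinarith
      rw [hx0, zero_mul] at h5
      rcases mul_eq_zero.1 h5.symm with h | h
      · exact ⟨hx0, h⟩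
      · exact absurd h hdb
    intro hsr
    have back : ∀ x y : ℝ,
        x • (WithLp.toLp 2 (a - v) : EuclideanSpace ℝ (Fin 3))
          = y • (WithLp.toLp 2 (b - v) : EuclideanSpace ℝ (Fin 3)) →
        x • (a - v) = y • (b - v) := by
      intro x y hxy
      rw [← WithLp.toLp_smul, ← WithLp.toLp_smul] at hxy
      exact (WithLp.toLp_injective 2) hxy
    rcases hsr with h | h | ⟨r1, r2, hr1, hr2, h⟩
    · have := h4 _ 0 ea.le le_rfl (back _ _ (by rw [h, zero_smul]))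
      exact ea.ne' this.1
    · have := h4 0 _ le_rfl eb.le (back _ _ (by rw [h, zero_smul]))
      exact eb.ne' this.2
    · rw [smul_smul, smul_smul] at h
      have := h4 _ _ (mul_pos hr1 ea).le (mul_pos hr2 eb).le (back _ _ h)
      exact (mul_pos hr1 ea).ne' this.1
  have h4 := norm_add_lt_of_not_sameRay h3
  rw [h2, norm_smul, norm_smul, norm_smul, Real.norm_eq_abs, Real.norm_eq_abs, Real.norm_eq_abs,
    abs_of_pos ea, abs_of_pos eb] at h4
  have h5 : s2_C Δ v p q * qc_N v p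
      ≤ |s2_C Δ v p q| * ‖(WithLp.toLp 2 (p - v) : EuclideanSpace ℝ (Fin 3))‖ :=
    mul_le_mul_of_nonneg_right (le_abs_self _) (norm_nonneg _)
  have h6 : qc_e Δ v p q a * qc_N v a + qc_e Δ v p q b * qc_N v b
      = qc_e Δ v p q a * ‖(WithLp.toLp 2 (a - v) : EuclideanSpace ℝ (Fin 3))‖
        + qc_e Δ v p q b * ‖(WithLp.toLp 2 (b - v) : EuclideanSpace ℝ (Fin 3))‖ := rfl
  rw [h6]
  linarith

theorem qc_m_ne {s : E3 → E3 → ℝ} (hs : s ∈ SigmaG Δ.tets v (dt v) (fun q => q - v))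
    (hK : ∀ i p q, qc_W Δ v (qc_U v i) s p q = 0) {p q : E3} (hd : qc_d Δ v s p q ≠ 0) :
    0 < qc_m Δ v p q := by
  have hn : InnG Δ.tets {v, p, q} := by
    by_contra hn
    exact hd (qc_d_not_inn Δ v hs hK hn)
  obtain ⟨a, b, hab, ha, hb⟩ := (s2_inn Δ v).1 hn
  by_cases h1 : s2_C Δ v q p = 0
  · exact qc_m_pos_aux Δ v hab ha hb h1
  · by_cases h2 : s2_C Δ v p q = 0
    · rw [← qc_m_swap Δ v p q]
      exact qc_m_pos_aux Δ v hab (s2_swap_tet v p q a ▸ ha) (s2_swap_tet v p q b ▸ hb) h2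
    · exfalso
      have h3 := (mul_eq_zero.1 (qc_F2 Δ v hs hK p q)).resolve_right h2
      have h4 := (mul_eq_zero.1 (qc_F3 Δ v hs hK p q)).resolve_right h1
      exact hd (by linarith)

theorem qc_d_add (s s' : E3 → E3 → ℝ) (p q : E3) :
    qc_d Δ v (s + s') p q = qc_d Δ v s p q + qc_d Δ v s' p q := by
  unfold qc_d
  rw [← mul_add, ← Finset.sum_add_distrib]
  congr 1
  refine Finset.sum_congr rfl fun a _ => ?_
  split_ifs
  · simp only [Pi.add_apply]
    ring
  · simp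

theorem qc_d_smul (c : ℝ) (s : E3 → E3 → ℝ) (p q : E3) :
    qc_d Δ v (c • s) p q = c * qc_d Δ v s p q := by
  unfold qc_d
  simp only [Finset.mul_sum]
  refine Finset.sum_congr rfl fun a _ => ?_
  split_ifs
  · simp only [Pi.smul_apply, smul_eq_mul]
    ring
  · simp

/-- The quadratic solution of a kernel element. -/
def qc_T : (E3 → E3 → ℝ) →ₗ[ℝ] (E3 → E3 → ℝ) where
  toFun := fun s p q => qc_d Δ v s p q * qc_m Δ v p q
  map_add' s s' := by
    funext p q
    simp only [Pi.add_apply]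
    rw [qc_d_add, add_mul]
  map_smul' c s := by
    funext p q
    simp only [Pi.smul_apply, smul_eq_mul, RingHom.id_apply]
    rw [qc_d_smul, mul_assoc]

theorem qc_T_apply (s : E3 → E3 → ℝ) (p q : E3) :
    qc_T Δ v s p q = qc_d Δ v s p q * qc_m Δ v p q := rfl

theorem qc_T_mem {s : E3 → E3 → ℝ} (hs : s ∈ SigmaG Δ.tets v (dt v) (fun q => q - v))
    (hK : ∀ i p q, qc_W Δ v (qc_U v i) s p q = 0) :
    qc_T Δ v s ∈ OmegaG Δ.tets v (fun q => q - v) := by
  have h4' : ∀ (p : E3) (j : Fin 3), ∑ q ∈ VV Δ.tets, s p q * s2_C Δ v p q * qc_U v j q = 0 :=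
    fun p => (qc_bal Δ v).1 (hs.2.2.2 p)
  refine ⟨fun p q => ?_, fun p q hn => ?_, fun p => ?_⟩
  · rw [qc_T_apply, qc_T_apply, qc_d_anti Δ v s p q, qc_m_swap Δ v p q]
    ring
  · rw [qc_T_apply, qc_d_not_inn Δ v hs hK (qc_not_inn Δ v hn), zero_mul]
  · refine (qc_bal Δ v).2 fun j => ?_
    -- the double sum
    have e0 : ∀ a ∈ VV Δ.tets,
        ∑ q ∈ VV Δ.tets, qc_d Δ v s p q * (qc_e Δ v p q a * qc_N v a) * qc_U v j q
        = qc_d Δ v s p a * s2_C Δ v a p * qc_N v a * qc_U v j a := by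
      intro a _
      have e1 : ∀ q ∈ VV Δ.tets,
          qc_d Δ v s p q * (qc_e Δ v p q a * qc_N v a) * qc_U v j q
          = (qc_N v a * ((3 * s p a + qc_d Δ v s p a) / 2))
            * (qc_e Δ v p a q * qc_U v j q) := by
        intro q _
        rw [qc_e_swap' Δ v p q a]
        by_cases ht : ({v, p, q, a} : Finset E3) ∈ Δ.tets
        · rw [qc_F4 Δ v hs hK ht]
          ring
        · rw [qc_e_not Δ v ht]
          ring
      rw [Finset.sum_congr rfl e1, ← Finset.mul_sum, qc_lin_mul Δ v j (p := p) (q := a) (fun hn => by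
        rw [hs.2.1 p a hn, qc_d_not_inn Δ v hs hK hn]
        ring)]
      have f2 := qc_F2 Δ v hs hK p a
      have f3 := qc_F3 Δ v hs hK p a
      linear_combination (qc_N v a * qc_U v j p / 2) * f2 - (qc_N v a * qc_U v j a / 2) * f3
    have e2 : ∑ q ∈ VV Δ.tets, qc_T Δ v s p q * qc_U v j q
        = ∑ a ∈ VV Δ.tets,
            ∑ q ∈ VV Δ.tets, qc_d Δ v s p q * (qc_e Δ v p q a * qc_N v a) * qc_U v j q
          - ∑ q ∈ VV Δ.tets, qc_d Δ v s p q * s2_C Δ v q p * qc_N v q * qc_U v j q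
          + (3 * qc_N v p) * ∑ q ∈ VV Δ.tets, s p q * s2_C Δ v p q * qc_U v j q := by
      rw [Finset.sum_comm, Finset.mul_sum, ← Finset.sum_sub_distrib, ← Finset.sum_add_distrib]
      refine Finset.sum_congr rfl fun q _ => ?_
      rw [qc_T_apply, ← Finset.sum_mul, ← Finset.mul_sum]
      unfold qc_m
      have f2 := qc_F2 Δ v hs hK p q
      linear_combination (- (qc_N v p * qc_U v j q)) * f2
    rw [e2, Finset.sum_congr rfl e0, h4' p j]
    ring

theorem qc_zero {s : E3 → E3 → ℝ} (hs : s ∈ SigmaG Δ.tets v (dt v) (fun q => q - v))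
    (hK : ∀ i p q, qc_W Δ v (qc_U v i) s p q = 0) (hT : qc_T Δ v s = 0) : s = 0 := by
  have hd : ∀ p q, qc_d Δ v s p q = 0 := by
    intro p q
    by_contra hne
    have h1 := qc_m_ne Δ v hs hK hne
    have h2 : qc_d Δ v s p q * qc_m Δ v p q = 0 := congrFun (congrFun hT p) q
    rcases mul_eq_zero.1 h2 with h | h
    · exact hne h
    · exact h1.ne' h
  funext p q
  by_cases hn : InnG Δ.tets {v, p, q}
  · obtain ⟨a, b, hab, ha, hb⟩ := (s2_inn Δ v).1 hn
    have h1 := qc_F1 Δ v hs hK ha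
    have h2 := qc_F1 Δ v hs hK (s2_swap_tet' v p q a ▸ ha)
    have h3 := hs.2.2.1 p q a ha
    rw [hd p q] at h1
    rw [hd p a, hs.1 a q] at h2
    rw [hs.1 a p] at h3
    change s p q = 0
    linarith
  · exact hs.2.1 p q hn

/-- A count of dimensions. -/
theorem qc_rank {A B : Type*} [AddCommGroup A] [Module ℝ A] [AddCommGroup B] [Module ℝ B]
    [Module.Finite ℝ A] [Module.Finite ℝ B] (Φ : A →ₗ[ℝ] (Fin 3 → B))
    (Ψ : LinearMap.ker Φ →ₗ[ℝ] B) (hΨ : ∀ x, Ψ x = 0 → x = 0) :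
    Module.finrank ℝ A ≤ 4 * Module.finrank ℝ B := by
  have h0 : Function.Injective Ψ := (injective_iff_map_eq_zero Ψ).2 hΨ
  have h1 := LinearMap.finrank_le_finrank_of_injective h0
  have h2 := LinearMap.finrank_range_add_finrank_ker Φ
  have h3 : Module.finrank ℝ (LinearMap.range Φ) ≤ Module.finrank ℝ (Fin 3 → B) :=
    Submodule.finrank_le _
  rw [Module.finrank_pi_fintype, Finset.sum_const, Finset.card_univ, Fintype.card_fin,
    smul_eq_mul] at h3
  omega

theorem qc_cubic : Module.finrank ℝ (SigmaG Δ.tets v (dt v) (fun q => q - v))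
    ≤ 4 * Module.finrank ℝ (OmegaG Δ.tets v (fun q => q - v)) := by
  have i1 := qc_fin_Omega Δ v
  have i2 := qc_fin_Sigma Δ v
  let Φ : SigmaG Δ.tets v (dt v) (fun q => q - v) →ₗ[ℝ]
      (Fin 3 → OmegaG Δ.tets v (fun q => q - v)) :=
    LinearMap.pi fun i => (qc_W Δ v (qc_U v i)).restrict fun s hs => qc_W_mem Δ v i hs
  have hker : ∀ x : LinearMap.ker Φ, ∀ i p q, qc_W Δ v (qc_U v i) x.1.1 p q = 0 := by
    intro x i p q
    have h0 : Φ x.1 = 0 := LinearMap.mem_ker.1 x.2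
    have := congrArg Subtype.val (congrFun h0 i)
    exact congrFun (congrFun this p) q
  refine qc_rank Φ (LinearMap.codRestrict _
      ((qc_T Δ v).comp ((Submodule.subtype _).comp (Submodule.subtype _)))
      (fun x => qc_T_mem Δ v x.1.2 (hker x))) fun x h0 => ?_
  exact Subtype.ext (Subtype.ext (qc_zero Δ v x.1.2 (hker x) (congrArg Subtype.val h0)))

end Pool.CB
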