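import Pool.Agent.Work.CB2.Final
import Pool.Agent.Work.CB2.S2

/-!
# Contraction of the local systems with linear forms
-/

open scoped BigOperators
open Finset

noncomputable section

namespace Pool.CB

variable (Δ : TetComplex) (v : E3)

theorem rel_aux {V : Type*} [AddCommGroup V] [Module ℝ V] {P Q X Y : V} {A B D1 D2 : ℝ}
    (h : D2 • X - D1 • Y = A • P - B • Q) (h12 : D1 * D2 < 0) :
    |D1|⁻¹ • X + |D2|⁻¹ • Y = (A / (|D1| * D2)) • P + (B / (|-D1| * -D2)) • Q := by
  have h1 : D1 ≠ 0 := by rintro rfl; simp at h12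
  have h2 : D2 ≠ 0 := by rintro rfl; simp at h12
  rw [abs_neg]
  have h1' : |D1| ≠ 0 := abs_ne_zero.2 h1
  have key : |D2| * D1 = - (|D1| * D2) := by
    rcases lt_or_gt_of_ne h1 with h | h
    · have h' : 0 < D2 := by nlinarith
      rw [abs_of_neg h, abs_of_pos h']; ring
    · have h' : D2 < 0 := by nlinarith
      rw [abs_of_pos h, abs_of_neg h']; ring
  have e1 : (A / (|D1| * D2)) • P + (B / (|D1| * -D2)) • Q
      = ((|D1| * D2)⁻¹) • (A • P - B • Q) := by
    rw [smul_sub, smul_smul, smul_smul, sub_eq_add_neg, ← neg_smul]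
    congr 2
    · field_simp
    · field_simp
  rw [e1, ← h, smul_sub, smul_smul, smul_smul, sub_eq_add_neg, ← neg_smul]
  have e2 : (|D1| * D2)⁻¹ * D2 = |D1|⁻¹ := by field_simp
  have e3 : -((|D1| * D2)⁻¹ * D1) = |D2|⁻¹ := by
    have h2' : |D2| ≠ 0 := abs_ne_zero.2 h2
    rw [← neg_eq_iff_eq_neg] at key
    rw [← key]
    field_simp
  rw [e2, e3]

/-- The identity at an inner triangle. -/
theorem rel_inner {p q a b : E3} (hab : a ≠ b) (ha : ({v, p, q, a} : Finset E3) ∈ Δ.tets)
    (hb : ({v, p, q, b} : Finset E3) ∈ Δ.tets) :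
    |dt v p q a|⁻¹ • (a - v) + |dt v p q b|⁻¹ • (b - v)
      = Δ.gcoef v p q • (p - v) + Δ.gcoef v q p • (q - v) := by
  have h1 : Δ.gcoef v p q = dt v a q b / (|dt v p q a| * dt v p q b) := s2_C_eq Δ v hab ha hb
  have ha' : ({v, q, p, a} : Finset E3) ∈ Δ.tets := by rw [← s2_swap_tet]; exact ha
  have hb' : ({v, q, p, b} : Finset E3) ∈ Δ.tets := by rw [← s2_swap_tet]; exact hb
  have h2 : Δ.gcoef v q p = dt v a p b / (|dt v q p a| * dt v q p b) := s2_C_eq Δ v hab ha' hb'
  rw [h1, h2, s2_dt_swap v p q a, s2_dt_swap v p q b]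
  exact rel_aux (s2_four v p q a b) (s2_dt_opp Δ v ha hb hab)

/-- The reciprocal of the absolute determinant of the tetrahedron `{v, p, q, a}` (zero if it is
not a tetrahedron of the complex). -/
def opw (p q a : E3) : ℝ := if ({v, p, q, a} : Finset E3) ∈ Δ.tets then |dt v p q a|⁻¹ else 0

theorem opw_swap (p q a : E3) : opw Δ v p q a = opw Δ v q p a := by
  unfold opw
  rw [s2_swap_tet v p q a, s2_dt_swap v p q a, abs_neg]

theorem opw_swap' (p q a : E3) : opw Δ v p q a = opw Δ v p a q := by
  unfold opw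
  rw [s2_swap_tet' v p q a, s2_dt_swap' v p q a, abs_neg]

theorem opw_pos {p q a : E3} (h : ({v, p, q, a} : Finset E3) ∈ Δ.tets) : 0 < opw Δ v p q a := by
  unfold opw
  rw [if_pos h]
  exact inv_pos.2 (abs_pos.2 (s2_dt_ne Δ v h))

theorem opw_zero {p q a : E3} (h : ({v, p, q, a} : Finset E3) ∉ Δ.tets) : opw Δ v p q a = 0 :=
  if_neg h

theorem sum_opw {p q : E3} (hi : Δ.IsInner {v, p, q}) :
    ∑ a ∈ Δ.vertices, opw Δ v p q a • (a - v)
      = Δ.gcoef v p q • (p - v) + Δ.gcoef v q p • (q - v) := by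
  obtain ⟨a, b, hab, ha, hb⟩ := (s2_inn Δ v).1 ((isInner_iff Δ _).1 hi)
  rw [← rel_inner Δ v hab ha hb]
  have hva : a ∈ Δ.vertices := s2_mem_VV Δ v ha
  have hvb : b ∈ Δ.vertices := s2_mem_VV Δ v hb
  have hsub : ({a, b} : Finset E3) ⊆ Δ.vertices := by
    intro x hx
    simp only [Finset.mem_insert, Finset.mem_singleton] at hx
    rcases hx with rfl | rfl
    · exact hva
    · exact hvb
  rw [← Finset.sum_subset hsub, Finset.sum_pair hab]
  · unfold opw
    rw [if_pos ha, if_pos hb]
  · intro x _ hx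
    simp only [Finset.mem_insert, Finset.mem_singleton, not_or] at hx
    rw [opw_zero, zero_smul]
    intro hxt
    rcases s2_third Δ v hab ha hb hxt with h | h
    · exact hx.1 h
    · exact hx.2 h

theorem sum_opw_f {p q : E3} (hi : Δ.IsInner {v, p, q}) (f : E3 →ₗ[ℝ] ℝ) :
    ∑ a ∈ Δ.vertices, f (a - v) * opw Δ v p q a
      = Δ.gcoef v p q * f (p - v) + Δ.gcoef v q p * f (q - v) := by
  have h := congrArg f (sum_opw Δ v hi)
  rw [map_sum, map_add, map_smul, map_smul, smul_eq_mul, smul_eq_mul] at h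
  rw [← h]
  refine Finset.sum_congr rfl fun a _ => ?_
  rw [map_smul, smul_eq_mul, mul_comm]

/-- The contraction of a solution of the cubic system with a linear form. -/
def Cw (f : E3 →ₗ[ℝ] ℝ) (s : E3 → E3 → ℝ) (p q : E3) : ℝ :=
  2 * f (p - v) * s p q * Δ.gcoef v p q - f (q - v) * s p q * Δ.gcoef v q p
    + ∑ a ∈ Δ.vertices, f (a - v) * s p a * opw Δ v p q a

theorem Cw_mem (f : E3 →ₗ[ℝ] ℝ) {s : E3 → E3 → ℝ} (hs : s ∈ Δ.cubicS v) :
    Cw Δ v f s ∈ Δ.quadS v := by
  obtain ⟨h1, h2, h3, h4⟩ := hs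
  refine ⟨fun p q => ?_, fun p q hpq => ?_, fun p => ?_⟩
  · by_cases hi : Δ.IsInner {v, p, q}
    · have e : ∀ a ∈ Δ.vertices, f (a - v) * s p a * opw Δ v p q a
          + f (a - v) * s q a * opw Δ v q p a = - (s p q * (f (a - v) * opw Δ v p q a)) := by
        intro a _
        rw [← opw_swap Δ v p q a]
        by_cases ht : ({v, p, q, a} : Finset E3) ∈ Δ.tets
        · have := h3 p q a ht
          rw [h1 a p] at this
          linear_combination (f (a - v) * opw Δ v p q a) * this
        · rw [opw_zero Δ v ht]; ring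
      have e2 := Finset.sum_congr rfl e
      rw [Finset.sum_add_distrib, Finset.sum_neg_distrib, ← Finset.mul_sum,
        sum_opw_f Δ v hi f] at e2
      unfold Cw
      rw [h1 q p]
      linear_combination e2
    · have e1 : s p q = 0 := h2 p q hi
      have e2 : s q p = 0 := by rw [← h1]; exact e1
      have e : ∀ a ∈ Δ.vertices, f (a - v) * s p a * opw Δ v p q a
          + f (a - v) * s q a * opw Δ v q p a = 0 := by
        intro a _
        rw [← opw_swap Δ v p q a]
        by_cases ht : ({v, p, q, a} : Finset E3) ∈ Δ.tets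
        · have := h3 p q a ht
          rw [h1 a p, e1] at this
          linear_combination (f (a - v) * opw Δ v p q a) * this
        · rw [opw_zero Δ v ht]; ring
      have e3 := Finset.sum_congr rfl e
      rw [Finset.sum_add_distrib, Finset.sum_const_zero] at e3
      unfold Cw
      rw [e1, e2]
      linear_combination e3
  · have hi : ¬ Δ.IsInner {v, p, q} := fun hh => hpq hh.1
    unfold Cw
    rw [h2 p q hi]
    simp only [mul_zero, zero_mul, sub_zero, zero_add]
    refine Finset.sum_eq_zero fun a _ => ?_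
    rw [opw_zero, mul_zero]
    intro ht
    apply hpq
    obtain ⟨g1, g2, g3, g4, g5, g6⟩ := four_ne (isFan Δ) ht
    refine ⟨Finset.card_eq_three.2 ⟨v, p, q, g1, g2, g4, rfl⟩, _, ht, ?_⟩
    intro x; simp only [Finset.mem_insert, Finset.mem_singleton]; tauto
  · have h4p := h4 p
    have e1 : ∑ q ∈ Δ.vertices, (2 * f (p - v) * s p q * Δ.gcoef v p q) • (q - v) = 0 := by
      have : ∀ q ∈ Δ.vertices, (2 * f (p - v) * s p q * Δ.gcoef v p q) • (q - v)
          = (2 * f (p - v)) • ((s p q * Δ.gcoef v p q) • (q - v)) := by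
        intro q _
        rw [smul_smul]; ring_nf
      rw [Finset.sum_congr rfl this, ← Finset.smul_sum, h4p, smul_zero]
    have e2 : ∑ q ∈ Δ.vertices, (∑ a ∈ Δ.vertices, f (a - v) * s p a * opw Δ v p q a) • (q - v)
        = ∑ a ∈ Δ.vertices, ((f (a - v) * s p a * Δ.gcoef v p a) • (p - v)
          + (f (a - v) * s p a * Δ.gcoef v a p) • (a - v)) := by
      simp only [Finset.sum_smul]
      rw [Finset.sum_comm]
      refine Finset.sum_congr rfl fun a _ => ?_
      by_cases hi : Δ.IsInner {v, p, a}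
      · have e3 : ∀ q ∈ Δ.vertices, (f (a - v) * s p a * opw Δ v p q a) • (q - v)
            = (f (a - v) * s p a) • (opw Δ v p a q • (q - v)) := by
          intro q _
          rw [smul_smul, opw_swap' Δ v p q a]
        rw [Finset.sum_congr rfl e3, ← Finset.smul_sum, sum_opw Δ v hi, smul_add, smul_smul,
          smul_smul]
      · rw [h2 p a hi]
        simp
    have e4 : ∑ a ∈ Δ.vertices, f (a - v) * s p a * Δ.gcoef v p a = 0 := by
      have := congrArg f h4p
      rw [map_sum, map_zero] at this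
      rw [← this]
      refine Finset.sum_congr rfl fun a _ => ?_
      rw [map_smul, smul_eq_mul]; ring
    have e5 : ∀ q ∈ Δ.vertices, Cw Δ v f s p q • (q - v)
        = (2 * f (p - v) * s p q * Δ.gcoef v p q) • (q - v)
          - (f (q - v) * s p q * Δ.gcoef v q p) • (q - v)
          + (∑ a ∈ Δ.vertices, f (a - v) * s p a * opw Δ v p q a) • (q - v) := by
      intro q _
      rw [← sub_smul, ← add_smul]
      rfl
    rw [Finset.sum_congr rfl e5, Finset.sum_add_distrib, Finset.sum_sub_distrib, e1, e2,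
      Finset.sum_add_distrib, ← Finset.sum_smul, e4]
    simp

/-- The contraction as a linear map. -/
def CwL (f : E3 →ₗ[ℝ] ℝ) : Δ.cubicS v →ₗ[ℝ] Δ.quadS v where
  toFun s := ⟨Cw Δ v f s.1, Cw_mem Δ v f s.2⟩
  map_add' s s' := by
    apply Subtype.ext
    funext p q
    show Cw Δ v f (s.1 + s'.1) p q = Cw Δ v f s.1 p q + Cw Δ v f s'.1 p q
    simp only [Cw, Pi.add_apply, mul_add, add_mul, Finset.sum_add_distrib]
    ring
  map_smul' c s := by
    apply Subtype.ext
    funext p q
    show Cw Δ v f (c • s.1) p q = c * Cw Δ v f s.1 p q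
    simp only [Cw, Pi.smul_apply, smul_eq_mul, mul_add, mul_sub, Finset.mul_sum]
    congr 1
    · ring
    · refine Finset.sum_congr rfl fun a _ => ?_
      ring

/-- The contraction of a solution of the quartic system with a linear form. -/
def Hw (f : E3 →ₗ[ℝ] ℝ) (θ : E3 → E3 → ℝ) (p q : E3) : ℝ :=
  f (p - v) * θ p q + f (q - v) * θ q p

theorem Hw_mem (f : E3 →ₗ[ℝ] ℝ) {θ : E3 → E3 → ℝ} (hθ : θ ∈ Δ.quarticS v) :
    Hw v f θ ∈ Δ.cubicS v := by
  obtain ⟨h1, h2, h3, h4⟩ := hθ
  refine ⟨fun p q => by unfold Hw; ring, fun p q hi => ?_, fun p q r ht => ?_, fun p => ?_⟩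
  · have hi' : ¬ Δ.IsInner {v, q, p} := by rwa [s2_swap_face]
    unfold Hw
    rw [h1 p q hi, h1 q p hi']; ring
  · have a1 := h2 p q r ht
    have a2 := h2 q p r (by rwa [← s2_swap_tet])
    have a3 := h2 r p q (by rwa [← s2_swap_tet, ← s2_swap_tet'])
    unfold Hw
    linear_combination f (p - v) * a1 + f (q - v) * a2 + f (r - v) * a3
  · have h4p := h4 p
    -- the vector X
    have e0 : ∑ q ∈ Δ.vertices, f (q - v) * θ p q * Δ.gcoef v p q = 0 := by
      have := congrArg f h4p
      rw [map_sum, map_zero] at this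
      rw [← this]
      refine Finset.sum_congr rfl fun a _ => ?_
      rw [map_smul, smul_eq_mul]; ring
    have eX : ∑ q ∈ Δ.vertices, (f (q - v) * θ p q * Δ.gcoef v q p) • (q - v) = 0 := by
      have d1 : ∑ q ∈ Δ.vertices, (f (q - v) * θ p q) •
          (∑ a ∈ Δ.vertices, opw Δ v p q a • (a - v))
          = ∑ q ∈ Δ.vertices, (f (q - v) * θ p q * Δ.gcoef v q p) • (q - v) := by
        have : ∀ q ∈ Δ.vertices, (f (q - v) * θ p q) •
            (∑ a ∈ Δ.vertices, opw Δ v p q a • (a - v))
            = (f (q - v) * θ p q * Δ.gcoef v p q) • (p - v)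
              + (f (q - v) * θ p q * Δ.gcoef v q p) • (q - v) := by
          intro q _
          by_cases hi : Δ.IsInner {v, p, q}
          · rw [sum_opw Δ v hi, smul_add, smul_smul, smul_smul]
          · rw [h1 p q hi]; simp
        rw [Finset.sum_congr rfl this, Finset.sum_add_distrib, ← Finset.sum_smul, e0]
        simp
      have d2 : ∑ q ∈ Δ.vertices, (f (q - v) * θ p q) •
          (∑ a ∈ Δ.vertices, opw Δ v p q a • (a - v))
          = - ∑ a ∈ Δ.vertices, (f (a - v) * θ p a * Δ.gcoef v a p) • (a - v) := by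
        have c1 : ∀ q ∈ Δ.vertices, (f (q - v) * θ p q) •
            (∑ a ∈ Δ.vertices, opw Δ v p q a • (a - v))
            = ∑ a ∈ Δ.vertices, (f (q - v) * θ p q * opw Δ v p q a) • (a - v) := by
          intro q _
          rw [Finset.smul_sum]
          refine Finset.sum_congr rfl fun a _ => ?_
          rw [smul_smul]
        rw [Finset.sum_congr rfl c1, Finset.sum_comm, ← Finset.sum_neg_distrib]
        have c2 : ∀ a ∈ Δ.vertices,
            ∑ q ∈ Δ.vertices, (f (q - v) * θ p q * opw Δ v p q a) • (a - v)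
            = - ((f (p - v) * θ p a * Δ.gcoef v p a) • (a - v)
              + (f (a - v) * θ p a * Δ.gcoef v a p) • (a - v)) := by
          intro a _
          have c3 : ∀ q ∈ Δ.vertices, (f (q - v) * θ p q * opw Δ v p q a) • (a - v)
              = (- θ p a * (f (q - v) * opw Δ v p a q)) • (a - v) := by
            intro q _
            rw [opw_swap' Δ v p q a]
            by_cases ht : ({v, p, a, q} : Finset E3) ∈ Δ.tets
            · have := h2 p a q ht
              congr 1
              linear_combination (f (q - v) * opw Δ v p a q) * this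
            · rw [opw_zero Δ v ht]; simp
          rw [Finset.sum_congr rfl c3, ← Finset.sum_smul, ← Finset.mul_sum]
          by_cases hi : Δ.IsInner {v, p, a}
          · rw [sum_opw_f Δ v hi f, ← add_smul, ← neg_smul]
            congr 1
            ring
          · rw [h1 p a hi]; simp
        rw [Finset.sum_congr rfl c2]
        have c4 : ∑ a ∈ Δ.vertices, (f (p - v) * θ p a * Δ.gcoef v p a) • (a - v) = 0 := by
          have : ∀ a ∈ Δ.vertices, (f (p - v) * θ p a * Δ.gcoef v p a) • (a - v)
              = f (p - v) • ((θ p a * Δ.gcoef v p a) • (a - v)) := by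
            intro a _
            rw [smul_smul]; ring_nf
          rw [Finset.sum_congr rfl this, ← Finset.smul_sum, h4p, smul_zero]
        rw [Finset.sum_neg_distrib, Finset.sum_add_distrib, c4, zero_add,
          ← Finset.sum_neg_distrib]
      rw [← d1] at d2
      have : (2 : ℝ) • ∑ q ∈ Δ.vertices, (f (q - v) * θ p q) •
          (∑ a ∈ Δ.vertices, opw Δ v p q a • (a - v)) = 0 := by
        rw [two_smul]
        nth_rewrite 1 [d2]
        exact neg_add_cancel _
      rw [smul_eq_zero] at this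
      rw [← d1]
      exact this.resolve_left two_ne_zero
    have e1 : ∀ q ∈ Δ.vertices, (Hw v f θ p q * Δ.gcoef v p q) • (q - v)
        = f (p - v) • ((θ p q * Δ.gcoef v p q) • (q - v))
          - (f (q - v) * θ p q * Δ.gcoef v q p) • (q - v) := by
      intro q _
      rw [smul_smul, ← sub_smul]
      congr 1
      unfold Hw
      linear_combination f (q - v) * h3 p q
    rw [Finset.sum_congr rfl e1, Finset.sum_sub_distrib, ← Finset.smul_sum, h4p, eX]
    simp

/-- The contraction of the quartic system as a linear map. -/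
def HwL (f : E3 →ₗ[ℝ] ℝ) : Δ.quarticS v →ₗ[ℝ] Δ.cubicS v where
  toFun θ := ⟨Hw v f θ.1, Hw_mem Δ v f θ.2⟩
  map_add' θ θ' := by
    apply Subtype.ext
    funext p q
    show Hw v f (θ.1 + θ'.1) p q = Hw v f θ.1 p q + Hw v f θ'.1 p q
    simp only [Hw, Pi.add_apply]
    ring
  map_smul' c θ := by
    apply Subtype.ext
    funext p q
    show Hw v f (c • θ.1) p q = c * Hw v f θ.1 p q
    simp only [Hw, Pi.smul_apply, smul_eq_mul]
    ring

end Pool.CB
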