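import Pool.Agent.Work.CB3.Open

/-!
# The generic dimension and quadratic splines on the stars
-/

open scoped BigOperators
open Finset

noncomputable section

namespace Pool.CB

variable (Δ : TetComplex)

theorem excess_two (v : E3) : Δ.starExcess 2 v = (Module.finrank ℝ (Δ.quadS v) : ℚ) := by
  have h := (star_all Δ blk_S2 blk_S3 v).1
  unfold TetComplex.starExcess
  linarith

theorem sum_singularAt : ∑ v ∈ Δ.vertices, (Δ.singularAt v : ℚ)
    = 2 * {e | Δ.IsSingular e}.ncard := by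
  classical
  have h3 := congrArg (Nat.cast : ℕ → ℚ) (sum_sg (T := Δ.tets) (h := hc))
  push_cast at h3
  rw [singular_ncard, ← h3]
  exact Finset.sum_congr rfl fun v _ => by rw [singularAt_eq]

theorem sing_excess {e : Finset E3} (he : Δ.IsSingular e) {v : E3} (hv : v ∈ e) :
    1 ≤ Module.finrank ℝ (Δ.quadS v) := by
  obtain ⟨hcard, t, ht, hst⟩ := he.1
  obtain ⟨a, b, hab, rfl⟩ := Finset.card_eq_two.1 hcard
  have key : ∀ a b : E3, a ≠ b → ({a, b} : Finset E3) ⊆ t → Δ.IsSingular {a, b} →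
      1 ≤ Module.finrank ℝ (Δ.quadS a) := by
    intro a b hab hst he
    exact sing_quad Δ a hab ht (hst (by simp)) (hst (by simp))
      ((isSingular_pair Δ ht (hst (by simp)) (hst (by simp)) hab).1 he)
  rw [Finset.mem_insert, Finset.mem_singleton] at hv
  rcases hv with rfl | rfl
  · exact key _ _ hab hst he
  · rw [Finset.pair_comm] at hst he
    exact key _ _ hab.symm hst he

theorem crit_lower {k : ℕ} (hk : 9 ≤ k) :
    Δ.count k + (k - 5) * {e | Δ.IsSingular e}.ncard + ∑ v ∈ Δ.vertices, Δ.starExcess 2 v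
      ≤ (Module.finrank ℝ (Δ.splines k) : ℚ) := by
  rw [dim_explicit Δ blk_S2 blk_S3 hk]
  have h1 : ∑ v ∈ Δ.vertices, Δ.starExcess 2 v + ∑ v ∈ Δ.vertices, (Δ.singularAt v : ℚ)
      ≤ ∑ v ∈ Δ.vertices, ((Module.finrank ℝ (Δ.quadS v) : ℚ)
          + Module.finrank ℝ (Δ.cubicS v) + Module.finrank ℝ (Δ.quarticS v)) := by
    rw [← Finset.sum_add_distrib]
    refine Finset.sum_le_sum fun v _ => ?_
    rw [excess_two]
    have h2 : (Δ.singularAt v : ℚ) ≤ Module.finrank ℝ (Δ.quarticS v) := by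
      exact_mod_cast quartic_ge Δ blk_S2 blk_S3 v
    have h3 : (0 : ℚ) ≤ Module.finrank ℝ (Δ.cubicS v) := Nat.cast_nonneg _
    linarith
  rw [sum_singularAt] at h1
  linarith

theorem crit_upper {k : ℕ} (hk : 9 ≤ k) :
    (Module.finrank ℝ (Δ.splines k) : ℚ) ≤ Δ.count k + (k + 1) * {e | Δ.IsSingular e}.ncard
      + 13 * ∑ v ∈ Δ.vertices, Δ.starExcess 2 v := by
  rw [dim_explicit Δ blk_S2 blk_S3 hk]
  have h1 : ∑ v ∈ Δ.vertices, ((Module.finrank ℝ (Δ.quadS v) : ℚ)
          + Module.finrank ℝ (Δ.cubicS v) + Module.finrank ℝ (Δ.quarticS v))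
      ≤ 13 * ∑ v ∈ Δ.vertices, Δ.starExcess 2 v + 4 * ∑ v ∈ Δ.vertices, (Δ.singularAt v : ℚ) := by
    rw [Finset.mul_sum, Finset.mul_sum, ← Finset.sum_add_distrib]
    refine Finset.sum_le_sum fun v _ => ?_
    rw [excess_two]
    have h2 : (Module.finrank ℝ (Δ.quarticS v) : ℚ) ≤ 3 * Module.finrank ℝ (Δ.cubicS v) := by
      exact_mod_cast quartic_le Δ v
    have h3 : (Module.finrank ℝ (Δ.cubicS v) : ℚ)
        ≤ 3 * Module.finrank ℝ (Δ.quadS v) + Δ.singularAt v := by
      exact_mod_cast cubic_le_gen Δ v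
    linarith
  rw [sum_singularAt] at h1
  linarith

/-- The generic dimension is attained if and only if the quadratic splines on all stars have it. -/
theorem crit_iff {k : ℕ} (hk : 9 ≤ k) :
    (Module.finrank ℝ (Δ.splines k) : ℚ) = Δ.count k ↔ ∀ v ∈ Δ.vertices, Δ.starExcess 2 v = 0 := by
  have hn : ∀ v ∈ Δ.vertices, 0 ≤ Δ.starExcess 2 v := fun v _ => by
    rw [excess_two]; exact Nat.cast_nonneg _
  constructor
  · intro hh
    have h1 := crit_lower Δ hk
    rw [hh] at h1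
    have h2 : (0 : ℚ) ≤ (k - 5) * {e | Δ.IsSingular e}.ncard := by
      have : (9 : ℚ) ≤ k := by exact_mod_cast hk
      exact mul_nonneg (by linarith) (Nat.cast_nonneg _)
    have h3 : ∑ v ∈ Δ.vertices, Δ.starExcess 2 v = 0 :=
      le_antisymm (by linarith) (Finset.sum_nonneg hn)
    exact (Finset.sum_eq_zero_iff_of_nonneg hn).1 h3
  · intro hh
    have h0 : ∑ v ∈ Δ.vertices, Δ.starExcess 2 v = 0 := Finset.sum_eq_zero hh
    have hs : {e | Δ.IsSingular e} = ∅ := by
      rw [Set.eq_empty_iff_forall_notMem]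
      intro e he
      obtain ⟨hcard, t, ht, hst⟩ := he.1
      have hne : e.Nonempty := Finset.card_pos.1 (by rw [hcard]; norm_num)
      obtain ⟨v, hv⟩ := hne
      have h1 := sing_excess Δ he hv
      have h2 := hh v (mem_VV.2 ⟨t, ht, hst hv⟩)
      rw [excess_two] at h2
      have h3 : Module.finrank ℝ (Δ.quadS v) = 0 := by exact_mod_cast h2
      omega
    have h1 := crit_lower Δ hk
    have h2 := crit_upper Δ hk
    rw [h0, hs, Set.ncard_empty] at h1 h2
    simp only [Nat.cast_zero, mul_zero, add_zero] at h1 h2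
    exact le_antisymm h2 h1

/-- The formula for complexes whose stars are open or generic. -/
theorem open_dim (hq : ∀ v ∈ Δ.vertices, Δ.starExcess 2 v = 0 ∨
      (Δ.OpenStar v ∧ Δ.starExcess 2 v = 1)) {k : ℕ} (hk : 9 ≤ k) :
    (Module.finrank ℝ (Δ.splines k) : ℚ) = Δ.count k + (k - 3) * {e | Δ.IsSingular e}.ncard
      + ∑ v ∈ Δ.vertices, Δ.starExcess 2 v := by
  rw [dim_explicit Δ blk_S2 blk_S3 hk]
  have h1 : ∑ v ∈ Δ.vertices, ((Module.finrank ℝ (Δ.quadS v) : ℚ)
          + Module.finrank ℝ (Δ.cubicS v) + Module.finrank ℝ (Δ.quarticS v))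
      = ∑ v ∈ Δ.vertices, Δ.starExcess 2 v + 2 * ∑ v ∈ Δ.vertices, (Δ.singularAt v : ℚ) := by
    rw [Finset.mul_sum, ← Finset.sum_add_distrib]
    refine Finset.sum_congr rfl fun v hv => ?_
    rw [excess_two]
    rcases hq v hv with h | ⟨ho, h⟩
    · rw [excess_two] at h
      have h0 : Module.finrank ℝ (Δ.quadS v) = 0 := by exact_mod_cast h
      obtain ⟨_, h2, h3⟩ := all_zero Δ v h0
      have h4 := quartic_ge Δ blk_S2 blk_S3 v
      have h5 : Δ.singularAt v = 0 := by omega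
      rw [h0, h2, h3, h5]
      simp
    · rw [excess_two] at h
      have h0 : Module.finrank ℝ (Δ.quadS v) = 1 := by exact_mod_cast h
      obtain ⟨h2, h3⟩ := open_formula Δ v ho h0.le
      rw [h2, h3]
      ring
  rw [h1, sum_singularAt]
  ring

/-- The excess of the cubic and quartic splines on a star. -/
theorem excess_three_four (v : E3) :
    Δ.starExcess 3 v - Δ.starExcess 2 v = (Module.finrank ℝ (Δ.cubicS v) : ℚ) ∧
    Δ.starExcess 4 v - Δ.starExcess 3 v = (Module.finrank ℝ (Δ.quarticS v) : ℚ) := by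
  obtain ⟨h1, h2, h3⟩ := star_all Δ blk_S2 blk_S3 v
  unfold TetComplex.starExcess
  constructor <;> linarith

/-- Open stars: the excess is concave. -/
theorem open_chain {v : E3} (ho : Δ.OpenStar v) :
    (Δ.singularAt v : ℚ) ≤ Δ.starExcess 4 v - Δ.starExcess 3 v ∧
    Δ.starExcess 4 v - Δ.starExcess 3 v ≤ Δ.starExcess 3 v - Δ.starExcess 2 v ∧
    Δ.starExcess 3 v - Δ.starExcess 2 v ≤ Δ.starExcess 2 v ∧
    (Δ.starExcess 2 v ≤ 1 → Δ.starExcess 3 v - Δ.starExcess 2 v = Δ.singularAt v ∧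
      Δ.starExcess 4 v - Δ.starExcess 3 v = Δ.singularAt v) := by
  obtain ⟨h3, h4⟩ := excess_three_four Δ v
  rw [h3, h4, excess_two]
  refine ⟨?_, ?_, ?_, fun hq => ?_⟩
  · exact_mod_cast quartic_ge Δ blk_S2 blk_S3 v
  · exact_mod_cast open_quartic_le Δ v ho
  · exact_mod_cast open_cubic_le Δ v ho
  · obtain ⟨a, b⟩ := open_formula Δ v ho (by exact_mod_cast hq)
    rw [a, b]
    exact ⟨rfl, rfl⟩

end Pool.CB
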