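import Pool.Agent.Work.CB3.B

/-!
# The cubic and quartic systems are controlled by the quadratic system

Final part: the dimension of the spline spaces.
-/

open scoped BigOperators
open Finset

noncomputable section

namespace Pool.CB

variable (Δ : TetComplex)

theorem qc_local (v : E3) : Δ.cDim v ≤ 4 * Δ.qDim v ∧ Δ.hDim v ≤ 3 * Δ.cDim v := by
  unfold TetComplex.cDim TetComplex.qDim TetComplex.hDim
  rw [quadS_eq, cubicS_eq, quarticS_eq]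
  exact ⟨qc_cubic Δ v, qc_quartic Δ v⟩

theorem qc_excess (v : E3) : Δ.starExcess 2 v = Δ.qDim v ∧
    Δ.starExcess 3 v = Δ.qDim v + Δ.cDim v ∧
    Δ.starExcess 4 v = Δ.qDim v + Δ.cDim v + Δ.hDim v := by
  obtain ⟨h1, h2, h3⟩ := star_all Δ blk_S2 blk_S3 v
  unfold TetComplex.starExcess TetComplex.qDim TetComplex.cDim TetComplex.hDim
  refine ⟨?_, ?_, ?_⟩ <;> linarith

theorem qc_singular : ∑ v ∈ Δ.vertices, (Δ.singularAt v : ℚ)
    = 2 * {e | Δ.IsSingular e}.ncard := by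
  have h3 := congrArg (Nat.cast : ℕ → ℚ) (sum_sg (T := Δ.tets) (h := hc))
  push_cast at h3
  rw [singular_ncard, ← h3]
  exact Finset.sum_congr rfl fun v _ => by rw [singularAt_eq]

theorem qc_dim {k : ℕ} (hk : 9 ≤ k) : (Module.finrank ℝ (Δ.splines k) : ℚ)
    = Δ.count k + (k - 7) * {e | Δ.IsSingular e}.ncard
      + ∑ v ∈ Δ.vertices, ((Δ.qDim v : ℚ) + Δ.cDim v + Δ.hDim v) := by
  rw [dim_explicit Δ blk_S2 blk_S3 hk]
  rfl

/-- The two bounds. -/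
theorem qc_bounds {k : ℕ} (hk : 9 ≤ k) :
    (Δ.count k + (k - 5) * {e | Δ.IsSingular e}.ncard + ∑ v ∈ Δ.vertices, Δ.starExcess 2 v
      ≤ Module.finrank ℝ (Δ.splines k)) ∧
    ((Module.finrank ℝ (Δ.splines k) : ℚ) ≤ Δ.count k + (k - 7) * {e | Δ.IsSingular e}.ncard
      + 17 * ∑ v ∈ Δ.vertices, Δ.starExcess 2 v) ∧
    (({e | Δ.IsSingular e}.ncard : ℚ) ≤ 6 * ∑ v ∈ Δ.vertices, Δ.starExcess 2 v) := by
  have h1 : ∑ v ∈ Δ.vertices, Δ.starExcess 2 v = ∑ v ∈ Δ.vertices, (Δ.qDim v : ℚ) :=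
    Finset.sum_congr rfl fun v _ => (qc_excess Δ v).1
  have h2 : ∀ v, (Δ.cDim v : ℚ) ≤ 4 * Δ.qDim v := fun v => by exact_mod_cast (qc_local Δ v).1
  have h3 : ∀ v, (Δ.hDim v : ℚ) ≤ 3 * Δ.cDim v := fun v => by exact_mod_cast (qc_local Δ v).2
  have h4 : ∀ v, (Δ.singularAt v : ℚ) ≤ Δ.hDim v := fun v => by
    exact_mod_cast quartic_ge Δ blk_S2 blk_S3 v
  have h5 := qc_singular Δ
  have h6 : ∑ v ∈ Δ.vertices, (Δ.singularAt v : ℚ) ≤ ∑ v ∈ Δ.vertices, (Δ.hDim v : ℚ) :=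
    Finset.sum_le_sum fun v _ => h4 v
  have h7 : ∑ v ∈ Δ.vertices, (Δ.hDim v : ℚ) ≤ 12 * ∑ v ∈ Δ.vertices, (Δ.qDim v : ℚ) := by
    rw [Finset.mul_sum]
    refine Finset.sum_le_sum fun v _ => ?_
    have := h2 v
    have := h3 v
    linarith
  have h8 : ∑ v ∈ Δ.vertices, (Δ.cDim v : ℚ) ≤ 4 * ∑ v ∈ Δ.vertices, (Δ.qDim v : ℚ) := by
    rw [Finset.mul_sum]
    exact Finset.sum_le_sum fun v _ => h2 v
  have h9 : 0 ≤ ∑ v ∈ Δ.vertices, (Δ.cDim v : ℚ) := Finset.sum_nonneg fun v _ => by positivity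
  rw [qc_dim Δ hk, h1, Finset.sum_add_distrib, Finset.sum_add_distrib]
  refine ⟨?_, ?_, ?_⟩
  · linarith
  · linarith
  · linarith

/-- The local bounds. -/
theorem qc_star (v : E3) : 0 ≤ Δ.starExcess 2 v ∧ Δ.starExcess 2 v ≤ Δ.starExcess 3 v ∧
    Δ.starExcess 3 v ≤ 5 * Δ.starExcess 2 v ∧ Δ.starExcess 3 v ≤ Δ.starExcess 4 v ∧
    Δ.starExcess 4 v ≤ 17 * Δ.starExcess 2 v := by
  obtain ⟨e1, e2, e3⟩ := qc_excess Δ v
  have h2 : (Δ.cDim v : ℚ) ≤ 4 * Δ.qDim v := by exact_mod_cast (qc_local Δ v).1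
  have h3 : (Δ.hDim v : ℚ) ≤ 3 * Δ.cDim v := by exact_mod_cast (qc_local Δ v).2
  have h4 : (0 : ℚ) ≤ Δ.qDim v := by positivity
  have h5 : (0 : ℚ) ≤ Δ.cDim v := by positivity
  have h6 : (0 : ℚ) ≤ Δ.hDim v := by positivity
  rw [e1, e2, e3]
  refine ⟨h4, ?_, ?_, ?_, ?_⟩ <;> linarith

/-- The criterion. -/
theorem qc_criterion {k : ℕ} (hk : 9 ≤ k) :
    (Module.finrank ℝ (Δ.splines k) : ℚ) = Δ.count k ↔
      ∀ v ∈ Δ.vertices, Δ.starExcess 2 v = 0 := by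
  obtain ⟨b1, b2, b3⟩ := qc_bounds Δ hk
  have hn : ∀ v ∈ Δ.vertices, 0 ≤ Δ.starExcess 2 v := fun v _ => (qc_star Δ v).1
  have hk' : (9 : ℚ) ≤ k := by exact_mod_cast hk
  have hs : (0 : ℚ) ≤ {e | Δ.IsSingular e}.ncard := by positivity
  constructor
  · intro h
    have h1 : ∑ v ∈ Δ.vertices, Δ.starExcess 2 v ≤ 0 := by
      have : 0 ≤ ((k : ℚ) - 5) * {e | Δ.IsSingular e}.ncard := mul_nonneg (by linarith) hs
      linarith
    exact (Finset.sum_eq_zero_iff_of_nonneg hn).1 (le_antisymm h1 (Finset.sum_nonneg hn))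
  · intro h
    have h1 : ∑ v ∈ Δ.vertices, Δ.starExcess 2 v = 0 := Finset.sum_eq_zero h
    rw [h1] at b1 b2 b3
    have h2 : ({e | Δ.IsSingular e}.ncard : ℚ) = 0 := by linarith
    rw [h2] at b1 b2
    linarith

end Pool.CB
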