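import Pool.Agent.Work.CB3.Contr

/-!
# The common kernel of all contractions, and generic dimension
-/

open scoped BigOperators
open Finset

noncomputable section

namespace Pool.CB

variable (Δ : TetComplex) (v : E3)

/-! ### Finite dimension -/

/-- Functions supported on a finite set of pairs. -/
theorem fd_supp (M : Submodule ℝ (E3 → E3 → ℝ))
    (hM : ∀ w ∈ M, ∀ p q, (p ∉ Δ.vertices ∨ q ∉ Δ.vertices) → w p q = 0) :
    FiniteDimensional ℝ M := by
  let F : M →ₗ[ℝ] (Δ.vertices → Δ.vertices → ℝ) :=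
    { toFun := fun w p q => w.1 p.1 q.1
      map_add' := fun _ _ => rfl
      map_smul' := fun _ _ => rfl }
  refine fd_of_inj F fun w w' hh => ?_
  apply Subtype.ext
  funext p q
  by_cases hp : p ∈ Δ.vertices
  · by_cases hq : q ∈ Δ.vertices
    · exact congrFun (congrFun hh ⟨p, hp⟩) ⟨q, hq⟩
    · rw [hM w.1 w.2 p q (Or.inr hq), hM w'.1 w'.2 p q (Or.inr hq)]
  · rw [hM w.1 w.2 p q (Or.inl hp), hM w'.1 w'.2 p q (Or.inl hp)]

theorem face_VV {p q : E3} (hf : ({v, p, q} : Finset E3) ∈ Δ.faces 3) :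
    p ∈ Δ.vertices ∧ q ∈ Δ.vertices := by
  obtain ⟨_, t, ht, hsub⟩ := hf
  exact ⟨mem_VV.2 ⟨t, ht, hsub (by simp)⟩, mem_VV.2 ⟨t, ht, hsub (by simp)⟩⟩

instance finite_quadS : FiniteDimensional ℝ (Δ.quadS v) := by
  refine fd_supp Δ _ fun w hw p q hpq => hw.2.1 p q fun hf => ?_
  have := face_VV Δ v hf
  tauto

instance finite_cubicS : FiniteDimensional ℝ (Δ.cubicS v) := by
  refine fd_supp Δ _ fun w hw p q hpq => hw.2.1 p q fun hf => ?_
  have := face_VV Δ v hf.1
  tauto

instance finite_quarticS : FiniteDimensional ℝ (Δ.quarticS v) := by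
  refine fd_supp Δ _ fun w hw p q hpq => hw.1 p q fun hf => ?_
  have := face_VV Δ v hf.1
  tauto

/-! ### Vectors annihilated by all forms which vanish at another vector -/

theorem mem_line {a x : E3} (h : ∀ f : E3 →ₗ[ℝ] ℝ, f a = 0 → f x = 0) : ∃ β : ℝ, x = β • a := by
  by_contra hcon
  have hx : x ∉ Submodule.span ℝ {a} := by
    intro hh
    obtain ⟨β, hβ⟩ := Submodule.mem_span_singleton.1 hh
    exact hcon ⟨β, hβ.symm⟩
  obtain ⟨f, hf, hp⟩ := Submodule.exists_le_ker_of_notMem hx
  exact hf (h f (LinearMap.mem_ker.1 (hp (Submodule.mem_span_singleton_self a))))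

/-! ### The alternation lemma -/

/-- The moment at the edge `v a` and the vertex `q`. -/
def Xq (s : E3 → E3 → ℝ) (a q : E3) : E3 :=
  ∑ x ∈ Δ.vertices, ((s a x - s a q) * opw Δ v a q x) • (x - v)

theorem Xq_f {s : E3 → E3 → ℝ} (hs : s ∈ Δ.cubicS v) (a q : E3) {f : E3 →ₗ[ℝ] ℝ}
    (hf : f (a - v) = 0) : f (Xq Δ v s a q) = Cw Δ v f s a q := by
  have e1 : f (Xq Δ v s a q) = ∑ x ∈ Δ.vertices, f (x - v) * s a x * opw Δ v a q x
      - s a q * ∑ x ∈ Δ.vertices, f (x - v) * opw Δ v a q x := by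
    unfold Xq
    rw [map_sum, Finset.mul_sum, ← Finset.sum_sub_distrib]
    refine Finset.sum_congr rfl fun x _ => ?_
    rw [map_smul, smul_eq_mul]
    ring
  rw [e1]
  unfold Cw
  by_cases hi : Δ.IsInner {v, a, q}
  · rw [sum_opw_f Δ v hi f, hf]
    ring
  · rw [hs.2.1 a q hi]
    ring

/-- The edge stress of a solution of the cubic system which is killed by the contractions with
forms vanishing at the edge. -/
theorem alt_sig {s : E3 → E3 → ℝ} (hs : s ∈ Δ.cubicS v) {a : E3} (hav : v ≠ a)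
    (hk : ∀ f : E3 →ₗ[ℝ] ℝ, f (a - v) = 0 → ∀ q, Cw Δ v f s a q = 0) :
    ∃ κ ∈ Sig Δ.tets hc {v, a}, ∀ w x, w ∉ ({v, a} : Finset E3) → x ∉ ({v, a} : Finset E3) →
      κ w x = (s a x - s a w) * opw Δ v a w x := by
  have hX : ∀ q, ∃ β : ℝ, Xq Δ v s a q = β • (a - v) := fun q =>
    mem_line fun f hf => by rw [Xq_f Δ v hs a q hf, hk f hf q]
  choose β hβ using hX
  have hav' : a - v ≠ 0 := sub_ne_zero.2 hav.symm
  -- the coefficients
  set cf : E3 → E3 → ℝ := fun w x => (s a x - s a w) * opw Δ v a w x with hcf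
  set M : E3 → ℝ := fun w => ∑ x ∈ Δ.vertices, cf w x with hM
  let κ : E3 → (E3 →₀ ℝ) := fun w => if w ∈ ({v, a} : Finset E3) then 0 else
    ∑ x ∈ Δ.vertices, Finsupp.single x (cf w x) + Finsupp.single a (- β w)
      + Finsupp.single v (β w - M w)
  have hκ0 : ∀ w, w ∈ ({v, a} : Finset E3) → κ w = 0 := fun w hw => if_pos hw
  have hκ1 : ∀ w, w ∉ ({v, a} : Finset E3) → κ w = ∑ x ∈ Δ.vertices, Finsupp.single x (cf w x)
      + Finsupp.single a (- β w) + Finsupp.single v (β w - M w) := fun w hw => if_neg hw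
  have hcf0 : ∀ w x, cf w x ≠ 0 → ({v, a, w, x} : Finset E3) ∈ Δ.tets := by
    intro w x hne
    by_contra hn
    apply hne
    rw [hcf]
    simp only
    rw [opw_zero Δ v hn, mul_zero]
  -- coefficients at other vertices
  have hκ2 : ∀ w x, w ∉ ({v, a} : Finset E3) → x ∉ ({v, a} : Finset E3) → κ w x = cf w x := by
    intro w x hw hx
    rw [Finset.mem_insert, Finset.mem_singleton, not_or] at hx
    rw [hκ1 w hw, Finsupp.add_apply, Finsupp.add_apply, Finsupp.single_apply, Finsupp.single_apply,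
      if_neg (Ne.symm hx.2), if_neg (Ne.symm hx.1), add_zero, add_zero, Finsupp.finset_sum_apply]
    simp only [Finsupp.single_apply]
    rw [Finset.sum_ite_eq']
    split_ifs with hxV
    · rfl
    · by_contra hne
      exact hxV (s2_mem_VV Δ v (hcf0 w x (Ne.symm hne)))
  have hsig : κ ∈ Sig Δ.tets hc {v, a} := by
    rw [mem_Sig]
    refine ⟨fun w => ?_, hκ0, fun w x hw hx => ?_⟩
    · by_cases hw : w ∈ ({v, a} : Finset E3)
      · rw [hκ0 w hw]; exact Submodule.zero_mem _
      · rw [hκ1 w hw]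
        by_cases hface : ∃ t ∈ Δ.tets, insert w ({v, a} : Finset E3) ⊆ t
        · obtain ⟨t, ht, hst⟩ := hface
          refine Submodule.mem_inf.2 ⟨?_, ?_⟩
          · refine Submodule.add_mem _ (Submodule.add_mem _ (Submodule.sum_mem _ fun x _ => ?_) ?_) ?_
            · by_cases hx : cf w x = 0
              · rw [hx, Finsupp.single_zero]; exact Submodule.zero_mem _
              · refine Finsupp.single_mem_supported _ _ ?_
                rw [Finset.mem_coe, mem_nb]
                refine ⟨_, hcf0 w x hx, ?_, by simp⟩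
                intro y hy
                simp only [Finset.mem_insert, Finset.mem_singleton] at hy ⊢
                tauto
            · refine Finsupp.single_mem_supported _ _ ?_
              rw [Finset.mem_coe, mem_nb]
              exact ⟨t, ht, hst, hst (by simp)⟩
            · refine Finsupp.single_mem_supported _ _ ?_
              rw [Finset.mem_coe, mem_nb]
              exact ⟨t, ht, hst, hst (by simp)⟩
          · rw [LinearMap.mem_ker]
            simp only [map_add, map_sum, Finsupp.linearCombination_single]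
            have hb := hβ w
            unfold Xq at hb
            have e1 : ∑ x ∈ Δ.vertices, cf w x • x = β w • (a - v) + M w • v := by
              rw [← hb, hM]
              simp only
              rw [Finset.sum_smul, ← Finset.sum_add_distrib]
              refine Finset.sum_congr rfl fun x _ => ?_
              rw [hcf, smul_sub]
              simp
            refine Prod.ext ?_ ?_
            · simp only [hc, Prod.smul_mk, Prod.fst_add, Prod.fst_zero, Prod.fst_sum]
              rw [e1]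
              module
            · simp only [hc, Prod.smul_mk, Prod.snd_add, Prod.snd_zero, Prod.snd_sum, smul_eq_mul,
                mul_one]
              rw [hM]
              ring
        · have hz : ∀ x, cf w x = 0 := by
            intro x
            by_contra hne
            refine hface ⟨_, hcf0 w x hne, ?_⟩
            intro y hy
            simp only [Finset.mem_insert, Finset.mem_singleton] at hy ⊢
            tauto
          have hM0 : M w = 0 := by
            rw [hM]
            exact Finset.sum_eq_zero fun x _ => hz x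
          have hβ0 : β w = 0 := by
            have hb := hβ w
            unfold Xq at hb
            have : ∑ x ∈ Δ.vertices, ((s a x - s a w) * opw Δ v a w x) • (x - v) = 0 := by
              refine Finset.sum_eq_zero fun x _ => ?_
              have := hz x
              rw [hcf] at this
              simp only at this
              rw [this, zero_smul]
            rw [this] at hb
            exact (smul_eq_zero.1 hb.symm).resolve_right hav'
          rw [hM0, hβ0]
          simp only [hz]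
          simp
    · rw [hκ2 w x hw hx, hκ2 x w hx hw, hcf]
      simp only
      rw [opw_swap' Δ v a x w]
      ring
  exact ⟨κ, hsig, hκ2⟩

theorem alt_of_zero {s : E3 → E3 → ℝ} {a : E3} {κ : E3 → (E3 →₀ ℝ)}
    (hκ2 : ∀ w x, w ∉ ({v, a} : Finset E3) → x ∉ ({v, a} : Finset E3) →
      κ w x = (s a x - s a w) * opw Δ v a w x) (hκz : κ = 0) {p q : E3}
    (ht : ({v, a, p, q} : Finset E3) ∈ Δ.tets) : s a p = s a q := by
  obtain ⟨g1, g2, g3, g4, g5, g6⟩ := four_ne (isFan Δ) ht
  have e := hκ2 p q (by simp [g2.symm, g4.symm]) (by simp [g3.symm, g5.symm])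
  rw [hκz] at e
  have e2 : (s a q - s a p) * opw Δ v a p q = 0 := e.symm
  rcases mul_eq_zero.1 e2 with h | h
  · linarith
  · exact absurd h (opw_pos Δ v ht).ne'

theorem alt_const {s : E3 → E3 → ℝ} (hs : s ∈ Δ.cubicS v) {a : E3} (hav : v ≠ a)
    (hns : ¬ SingAbs Δ.tets hc {v, a})
    (hk : ∀ f : E3 →ₗ[ℝ] ℝ, f (a - v) = 0 → ∀ q, Cw Δ v f s a q = 0) {p q : E3}
    (ht : ({v, a, p, q} : Finset E3) ∈ Δ.tets) : s a p = s a q := by
  obtain ⟨κ, hsig, hκ2⟩ := alt_sig Δ v hs hav hk
  refine alt_of_zero Δ v hκ2 ?_ ht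
  by_contra hne
  obtain ⟨w, y, w', y', hC⟩ := sig_cross (isFan Δ) hav hsig hne
  obtain ⟨hs, φ, ψ, hφ, hψ, _, hk⟩ := cross_singAbs (isFan Δ) hC
  exact hns ⟨hs, φ, ψ, hφ, hψ, hk⟩

/-- The same at a singular edge. -/
theorem alt_sing {a : E3} (hav : v ≠ a) {t0 : Finset E3} (ht0 : t0 ∈ Δ.tets) (hv0 : v ∈ t0)
    (ha0 : a ∈ t0) (hS : SingAbs Δ.tets hc {v, a}) :
    ∃ w y : E3, ∀ s ∈ Δ.cubicS v, (∀ f : E3 →ₗ[ℝ] ℝ, f (a - v) = 0 → ∀ q, Cw Δ v f s a q = 0) →
      s a y = s a w → ∀ p q, ({v, a, p, q} : Finset E3) ∈ Δ.tets → s a p = s a q := by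
  have hT := isFan Δ
  obtain ⟨w, y, w', y', hC⟩ := singAbs_cross hT hav ht0 hv0 ha0 hS
  refine ⟨w, y', fun s hs hk h0 p q ht => ?_⟩
  obtain ⟨κ, hsig, hκ2⟩ := alt_sig Δ v hs hav hk
  refine alt_of_zero Δ v hκ2 (cross_inj hT hC hsig ?_) ht
  obtain ⟨g1, g2, g3, g4, g5, g6⟩ := four_ne hT hC.t4
  rw [hκ2 w y' (by simp [g2.symm, g4.symm]) (by simp [g3.symm, g5.symm]), h0]
  ring

/-- A solution of the cubic system which is constant around all edges is zero. -/
theorem const_zero {s : E3 → E3 → ℝ} (hs : s ∈ Δ.cubicS v)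
    (key : ∀ p q r, ({v, p, q, r} : Finset E3) ∈ Δ.tets → s p q = s p r) : s = 0 := by
  funext p q
  by_cases hi : Δ.IsInner {v, p, q}
  · obtain ⟨a, b, hab, ha, hb⟩ := (s2_inn Δ v).1 ((isInner_iff Δ _).1 hi)
    have h1 := key p q a ha
    have h2 := key q p a (by rw [← s2_swap_tet]; exact ha)
    have h3 := hs.2.2.1 p q a ha
    have h4 := hs.1 q p
    have h5 := hs.1 a p
    show s p q = 0
    linarith
  · exact hs.2.1 p q hi

/-- The common kernel of all contractions is zero if no edge at `v` is singular. -/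
theorem joint_zero (hns : ∀ a, ¬ Δ.IsSingular {v, a}) {s : E3 → E3 → ℝ}
    (hs : s ∈ Δ.cubicS v) (hk : ∀ f : E3 →ₗ[ℝ] ℝ, Cw Δ v f s = 0) : s = 0 := by
  have key : ∀ p q r, ({v, p, q, r} : Finset E3) ∈ Δ.tets → s p q = s p r := by
    intro p q r ht
    obtain ⟨g1, g2, g3, g4, g5, g6⟩ := four_ne (isFan Δ) ht
    exact alt_const Δ v hs g1
      (fun hS => hns p ((isSingular_pair Δ ht (by simp) (by simp) g1).2 hS))
      (fun f _ q => by rw [hk f]; rfl) ht
  exact const_zero Δ v hs key

/-- The coordinate forms. -/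
def prj (i : Fin 3) : E3 →ₗ[ℝ] ℝ := LinearMap.proj i

theorem form_eq (f : E3 →ₗ[ℝ] ℝ) (x : E3) :
    f x = ∑ i, f (Pi.single i 1) * prj i x := by
  conv_lhs => rw [LinearMap.pi_apply_eq_sum_univ f x]
  refine Finset.sum_congr rfl fun i _ => ?_
  rw [smul_eq_mul, mul_comm]
  congr 2
  funext j
  rw [Pi.single_apply]
  simp [eq_comm]

theorem Cw_lin (f : E3 →ₗ[ℝ] ℝ) (s : E3 → E3 → ℝ) (p q : E3) :
    Cw Δ v f s p q = ∑ i, f (Pi.single i 1) * Cw Δ v (prj i) s p q := by
  unfold Cw
  rw [form_eq f (p - v), form_eq f (q - v)]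
  simp only [mul_add, mul_sub, Finset.sum_add_distrib, Finset.sum_sub_distrib, Finset.mul_sum]
  congr 1
  · congr 1
    · rw [Finset.sum_mul, Finset.sum_mul]
      exact Finset.sum_congr rfl fun i _ => by ring
    · rw [Finset.sum_mul, Finset.sum_mul]
      exact Finset.sum_congr rfl fun i _ => by ring
  · rw [Finset.sum_comm]
    refine Finset.sum_congr rfl fun a _ => ?_
    rw [form_eq f (a - v), Finset.sum_mul, Finset.sum_mul]
    exact Finset.sum_congr rfl fun i _ => by ring

theorem Hw_lin (f : E3 →ₗ[ℝ] ℝ) (θ : E3 → E3 → ℝ) (p q : E3) :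
    Hw v f θ p q = ∑ i, f (Pi.single i 1) * Hw v (prj i) θ p q := by
  unfold Hw
  rw [form_eq f (p - v), form_eq f (q - v)]
  simp only [mul_add, Finset.sum_add_distrib]
  congr 1
  · rw [Finset.sum_mul]
    exact Finset.sum_congr rfl fun i _ => by ring
  · rw [Finset.sum_mul]
    exact Finset.sum_congr rfl fun i _ => by ring

/-- Without singular edges `c_v ≤ 3 q_v`. -/
theorem cubic_le (hns : ∀ a, ¬ Δ.IsSingular {v, a}) :
    Module.finrank ℝ (Δ.cubicS v) ≤ 3 * Module.finrank ℝ (Δ.quadS v) := by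
  let F : Δ.cubicS v →ₗ[ℝ] (Fin 3 → Δ.quadS v) := LinearMap.pi fun i => CwL Δ v (prj i)
  have hF : Function.Injective F := by
    rw [← LinearMap.ker_eq_bot, LinearMap.ker_eq_bot']
    intro s hs
    apply Subtype.ext
    refine joint_zero Δ v hns s.2 fun f => ?_
    funext p q
    rw [Cw_lin]
    refine Finset.sum_eq_zero fun i _ => ?_
    have h1 : CwL Δ v (prj i) s = 0 := congrFun hs i
    have h2 : Cw Δ v (prj i) s.1 = 0 := congrArg Subtype.val h1
    rw [h2]
    simp
  have h := LinearMap.finrank_le_finrank_of_injective hF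
  rw [Module.finrank_pi_fintype] at h
  simpa using h

open Classical in
/-- In general `c_v ≤ 3 q_v + s_v`. -/
theorem cubic_le_gen :
    Module.finrank ℝ (Δ.cubicS v) ≤ 3 * Module.finrank ℝ (Δ.quadS v) + Δ.singularAt v := by
  have hT := isFan Δ
  set S : Finset E3 := ((VV (Tv Δ.tets v)).erase v).filter
    (fun p => SingAbs (Tv Δ.tets v) hc {v, p}) with hS
  have hSc : S.card = Δ.singularAt v := by
    rw [singularAt_eq, sg_eq]
  have hmemS : ∀ a, v ≠ a → ∀ t ∈ Δ.tets, v ∈ t → a ∈ t → SingAbs Δ.tets hc {v, a} → a ∈ S := by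
    intro a hva t ht hvt hat hSa
    rw [hS, Finset.mem_filter, Finset.mem_erase, mem_VV]
    exact ⟨⟨hva.symm, t, mem_Tv.2 ⟨ht, hvt⟩, hat⟩, singAbs_Tv.2 hSa⟩
  have hex : ∀ a : S, ∃ w y : E3, ∀ s ∈ Δ.cubicS v,
      (∀ f : E3 →ₗ[ℝ] ℝ, f (a.1 - v) = 0 → ∀ q, Cw Δ v f s a.1 q = 0) →
      s a.1 y = s a.1 w → ∀ p q, ({v, a.1, p, q} : Finset E3) ∈ Δ.tets →
        s a.1 p = s a.1 q := by
    rintro ⟨a, ha⟩
    rw [hS, Finset.mem_filter, Finset.mem_erase, mem_VV] at ha
    obtain ⟨⟨hav, t, ht, hat⟩, hSa⟩ := ha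
    exact alt_sing Δ v (Ne.symm hav) (mem_Tv.1 ht).1 (mem_Tv.1 ht).2 hat (singAbs_Tv.1 hSa)
  choose wf yf hwy using hex
  let G : Δ.cubicS v →ₗ[ℝ] (S → ℝ) :=
    { toFun := fun s a => s.1 a.1 (yf a) - s.1 a.1 (wf a)
      map_add' := fun s s' => by
        funext a
        show (s.1 + s'.1) a.1 (yf a) - (s.1 + s'.1) a.1 (wf a)
          = (s.1 a.1 (yf a) - s.1 a.1 (wf a)) + (s'.1 a.1 (yf a) - s'.1 a.1 (wf a))
        simp only [Pi.add_apply]
        ring
      map_smul' := fun c s => by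
        funext a
        show (c • s.1) a.1 (yf a) - (c • s.1) a.1 (wf a)
          = c * (s.1 a.1 (yf a) - s.1 a.1 (wf a))
        simp only [Pi.smul_apply, smul_eq_mul]
        ring }
  let F : Δ.cubicS v →ₗ[ℝ] (Fin 3 → Δ.quadS v) × (S → ℝ) :=
    (LinearMap.pi fun i => CwL Δ v (prj i)).prod G
  have hF : Function.Injective F := by
    rw [← LinearMap.ker_eq_bot, LinearMap.ker_eq_bot']
    intro s hs
    apply Subtype.ext
    have hs1 := congrArg Prod.fst hs
    have hs2 := congrArg Prod.snd hs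
    have hk : ∀ f : E3 →ₗ[ℝ] ℝ, Cw Δ v f s.1 = 0 := by
      intro f
      funext p q
      rw [Cw_lin]
      refine Finset.sum_eq_zero fun i _ => ?_
      have h1 : CwL Δ v (prj i) s = 0 := congrFun hs1 i
      have h2 : Cw Δ v (prj i) s.1 = 0 := congrArg Subtype.val h1
      rw [h2]
      simp
    refine const_zero Δ v s.2 fun p q r ht => ?_
    obtain ⟨g1, g2, g3, g4, g5, g6⟩ := four_ne hT ht
    have hk' : ∀ f : E3 →ₗ[ℝ] ℝ, f (p - v) = 0 → ∀ q, Cw Δ v f s.1 p q = 0 :=
      fun f _ q => by rw [hk f]; rfl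
    by_cases hSp : SingAbs Δ.tets hc {v, p}
    · have hp : p ∈ S := hmemS p g1 _ ht (by simp) (by simp) hSp
      have h0 : s.1 p (yf ⟨p, hp⟩) - s.1 p (wf ⟨p, hp⟩) = 0 := congrFun hs2 ⟨p, hp⟩
      exact hwy ⟨p, hp⟩ s.1 s.2 hk' (sub_eq_zero.1 h0) q r ht
    · exact alt_const Δ v s.2 g1 hSp hk' ht
  have h := LinearMap.finrank_le_finrank_of_injective hF
  rw [Module.finrank_prod, Module.finrank_pi_fintype, Module.finrank_fintype_fun_eq_card,
    Fintype.card_coe, hSc] at h
  simpa using h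

theorem quartic_le : Module.finrank ℝ (Δ.quarticS v) ≤ 3 * Module.finrank ℝ (Δ.cubicS v) := by
  let F : Δ.quarticS v →ₗ[ℝ] (Fin 3 → Δ.cubicS v) := LinearMap.pi fun i => HwL Δ v (prj i)
  have hF : Function.Injective F := by
    rw [← LinearMap.ker_eq_bot, LinearMap.ker_eq_bot']
    intro s hs
    apply Subtype.ext
    funext p q
    by_cases hi : Δ.IsInner {v, p, q}
    · obtain ⟨a, b, hab, ha, hb⟩ := (s2_inn Δ v).1 ((isInner_iff Δ _).1 hi)
      have hz : s.1 p q • (p - v) + s.1 q p • (q - v) = 0 := by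
        funext j
        have h1 : HwL Δ v (prj j) s = 0 := congrFun hs j
        have h2 : Hw v (prj j) s.1 = 0 := congrArg Subtype.val h1
        have h3 := congrFun (congrFun h2 p) q
        simp only [Hw, prj, LinearMap.proj_apply, Pi.zero_apply] at h3
        simp only [Pi.add_apply, Pi.smul_apply, smul_eq_mul, Pi.zero_apply]
        linarith
      have := s2_ind Δ v ha (x := s.1 p q) (y := s.1 q p) (z := 0) (by rw [hz]; simp)
      exact this.1
    · exact s.2.1 p q hi
  have h := LinearMap.finrank_le_finrank_of_injective hF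
  rw [Module.finrank_pi_fintype] at h
  simpa using h

/-! ### Singular edges -/

theorem sing_quad {a : E3} (hav : v ≠ a) {t0 : Finset E3} (ht0 : t0 ∈ Δ.tets) (hv0 : v ∈ t0)
    (ha0 : a ∈ t0) (hS : SingAbs Δ.tets hc {v, a}) : 0 < Module.finrank ℝ (Δ.quadS v) := by
  have hT := isFan Δ
  obtain ⟨w0, y0, w0', y0', hC⟩ := singAbs_cross hT hav ht0 hv0 ha0 hS
  obtain ⟨κ, hκ, hκ1⟩ := cross_exists hT hC
  obtain ⟨R, hR1, hR2, hR3⟩ := sig_extend hT hav ht0 hv0 ha0 hκ
  obtain ⟨g1, g2, g3, g4, g5, g6⟩ := four_ne hT hC.t4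
  let w : E3 → E3 → ℝ := fun x y => if x = v ∨ y = v then 0 else R x y
  have hw0 : ∀ x y, (x = v ∨ y = v) → w x y = 0 := fun x y hh => if_pos hh
  have hw1 : ∀ x y, ¬ (x = v ∨ y = v) → w x y = R x y := fun x y hh => if_neg hh
  have hw : w ∈ Δ.quadS v := by
    refine ⟨fun p q => ?_, fun p q hpq => ?_, fun p => ?_⟩
    · by_cases hh : p = v ∨ q = v
      · rw [hw0 p q hh, hw0 q p hh.symm, add_zero]
      · rw [hw1 p q hh, hw1 q p (fun h => hh h.symm)]
        exact hR2 p q
    · by_cases hh : p = v ∨ q = v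
      · exact hw0 p q hh
      · rw [hw1 p q hh]
        rw [not_or] at hh
        by_contra hne
        apply hpq
        have hpq' : p ≠ q := by
          rintro rfl
          have := hR2 p p
          exact hne (by linarith)
        have hq : q ∈ nb Δ.tets (insert p {v, a}) := by
          by_contra hn
          exact hne (Rel_apply_eq_zero (hR1 p) hn)
        obtain ⟨t, ht, hst, hqt⟩ := mem_nb.1 hq
        refine ⟨Finset.card_eq_three.2 ⟨v, p, q, Ne.symm hh.1, Ne.symm hh.2, hpq', rfl⟩, t, ht, ?_⟩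
        intro x hx
        simp only [Finset.mem_insert, Finset.mem_singleton] at hx
        rcases hx with rfl | rfl | rfl
        · exact hst (by simp)
        · exact hst (by simp)
        · exact hqt
    · by_cases hp : p = v
      · refine Finset.sum_eq_zero fun q _ => ?_
        rw [hw0 p q (Or.inl hp), zero_smul]
      · have h1 := Rel_sum_eq_zero (hR1 p)
        have h2 := congrArg Prod.fst h1
        have h3 := congrArg Prod.snd h1
        rw [Prod.fst_sum] at h2
        rw [Prod.snd_sum] at h3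
        simp only [hc, Prod.smul_mk, Prod.fst_zero, Prod.snd_zero, smul_eq_mul, mul_one] at h2 h3
        have h4 : ∀ q ∈ Δ.vertices, w p q • (q - v) = R p q • q - R p q • v := by
          intro q _
          by_cases hq : q = v
          · rw [hw0 p q (Or.inr hq), hq]; simp
          · rw [hw1 p q (by tauto), smul_sub]
        rw [Finset.sum_congr rfl h4, Finset.sum_sub_distrib, ← Finset.sum_smul]
        have h5 : ∑ q ∈ Δ.vertices, R p q • q = 0 := h2
        have h6 : ∑ q ∈ Δ.vertices, R p q = 0 := h3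
        rw [h5, h6]
        simp
  have hne : (⟨w, hw⟩ : Δ.quadS v) ≠ 0 := by
    intro h0
    have h1 : w = 0 := congrArg Subtype.val h0
    have h2 : w w0 y0' = 0 := by rw [h1]; rfl
    rw [hw1 w0 y0' (by rintro (h | h); exacts [g2 h.symm, g3 h.symm]),
      hR3 w0 g2.symm g4.symm, hκ1] at h2
    exact one_ne_zero h2
  exact Module.finrank_pos_iff_exists_ne_zero.2 ⟨_, hne⟩

/-- `q_v = 0` implies that there are no singular edges at `v` and that the other two numbers
vanish. -/
theorem all_zero (hv : Module.finrank ℝ (Δ.quadS v) = 0) :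
    (∀ a, ¬ Δ.IsSingular {v, a}) ∧ Module.finrank ℝ (Δ.cubicS v) = 0 ∧
      Module.finrank ℝ (Δ.quarticS v) = 0 := by
  have h1 : ∀ a, ¬ Δ.IsSingular {v, a} := by
    intro a ha
    obtain ⟨hcard, t, ht, hst⟩ := ha.1
    have hva : v ≠ a := by
      rintro rfl
      simp at hcard
    have := sing_quad Δ v hva ht (hst (by simp)) (hst (by simp))
      ((isSingular_pair Δ ht (hst (by simp)) (hst (by simp)) hva).1 ha)
    omega
  have h2 : Module.finrank ℝ (Δ.cubicS v) = 0 := by
    have := cubic_le Δ v h1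
    omega
  refine ⟨h1, h2, ?_⟩
  have := quartic_le Δ v
  omega

end Pool.CB
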