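import Pool.Agent.Work.CB3.Kern
import Pool.Agent.Work.CB2.S3

/-!
# Open vertex stars
-/

open scoped BigOperators
open Finset

noncomputable section

namespace Pool.CB

namespace TetComplex

variable (Δ : TetComplex)

/-- The star of `v` is open: every tetrahedron with vertex `v` can be joined with a tetrahedron
which has a triangle with vertex `v` in no other tetrahedron, by a chain of tetrahedra with vertex
`v` in which consecutive ones have a triangle with vertex `v` in common. -/
def OpenStar (v : E3) : Prop :=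
  ∀ t ∈ Δ.tets, v ∈ t → ∃ t' ∈ Δ.tets,
    Relation.ReflTransGen
      (fun a b : Finset E3 => a ∈ Δ.tets ∧ b ∈ Δ.tets ∧ v ∈ a ∩ b ∧ (a ∩ b).card = 3) t t' ∧
    ∃ f ⊆ t', v ∈ f ∧ f.card = 3 ∧ ∀ s ∈ Δ.tets, f ⊆ s → s = t'

end TetComplex

variable (Δ : TetComplex) (v : E3)

/-- Propagation along the star: a property of tetrahedra. -/
theorem open_induction (ho : Δ.OpenStar v) (Z : Finset E3 → Prop)
    (h0 : ∀ p q r, ({v, p, q, r} : Finset E3) ∈ Δ.tets →
      (∀ s ∈ Δ.tets, ({v, p, q} : Finset E3) ⊆ s → s = {v, p, q, r}) → Z {v, p, q, r})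
    (h1 : ∀ p q r r', ({v, p, q, r} : Finset E3) ∈ Δ.tets → ({v, p, q, r'} : Finset E3) ∈ Δ.tets →
      r ≠ r' → Z {v, p, q, r} → Z {v, p, q, r'}) :
    ∀ t ∈ Δ.tets, v ∈ t → Z t := by
  have hT := isFan Δ
  -- a face with three vertices
  have face : ∀ f : Finset E3, v ∈ f → f.card = 3 → ∃ p q, f = {v, p, q} ∧ v ≠ p ∧ v ≠ q ∧ p ≠ q := by
    intro f hv hc
    have : (f.erase v).card = 2 := by rw [Finset.card_erase_of_mem hv, hc]
    obtain ⟨p, q, hpq, he⟩ := Finset.card_eq_two.1 this
    have hp : p ∈ f.erase v := by rw [he]; simp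
    have hq : q ∈ f.erase v := by rw [he]; simp
    refine ⟨p, q, ?_, (Finset.ne_of_mem_erase hp).symm, (Finset.ne_of_mem_erase hq).symm, hpq⟩
    rw [← Finset.insert_erase hv, he]
  -- a tetrahedron containing a face
  have tet : ∀ p q, v ≠ p → v ≠ q → p ≠ q → ∀ t ∈ Δ.tets, ({v, p, q} : Finset E3) ⊆ t →
      ∃ r, t = {v, p, q, r} := by
    intro p q hvp hvq hpq t ht hst
    have hex : ∃ r ∈ t, r ∉ ({v, p, q} : Finset E3) := by
      by_contra hcon
      push Not at hcon
      have h7 : t.card ≤ ({v, p, q} : Finset E3).card := Finset.card_le_card hcon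
      rw [Δ.card_eq t ht] at h7
      have h8 : ({v, p, q} : Finset E3).card ≤ 3 := Finset.card_le_three
      omega
    obtain ⟨r, hr, hr'⟩ := hex
    simp only [Finset.mem_insert, Finset.mem_singleton, not_or] at hr'
    exact ⟨r, subset_eq_four hT ht hvp hvq (Ne.symm hr'.1) hpq (Ne.symm hr'.2.1)
      (Ne.symm hr'.2.2) (hst (by simp)) (hst (by simp)) (hst (by simp)) hr⟩
  intro t ht hvt
  obtain ⟨t', ht', hch, f, hft, hvf, hfc, hfu⟩ := ho t ht hvt
  have hZ : Z t' := by
    obtain ⟨p, q, rfl, hvp, hvq, hpq⟩ := face f hvf hfc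
    obtain ⟨r, rfl⟩ := tet p q hvp hvq hpq t' ht' hft
    exact h0 p q r ht' hfu
  clear ht' hft hfu
  induction hch using Relation.ReflTransGen.head_induction_on with
  | refl => exact hZ
  | @head a b hab _ ih =>
    obtain ⟨ha, hb, hvab, hc⟩ := hab
    have hZb := ih hb (Finset.mem_inter.1 hvab).2
    obtain ⟨p, q, he, hvp, hvq, hpq⟩ := face _ hvab hc
    have hsa : ({v, p, q} : Finset E3) ⊆ a := by rw [← he]; exact Finset.inter_subset_left
    have hsb : ({v, p, q} : Finset E3) ⊆ b := by rw [← he]; exact Finset.inter_subset_right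
    obtain ⟨r, hr⟩ := tet p q hvp hvq hpq _ ha hsa
    obtain ⟨r', hr'⟩ := tet p q hvp hvq hpq _ hb hsb
    rw [hr'] at hZb hb
    rw [hr] at ha ⊢
    refine h1 p q r' r hb ha ?_ hZb
    rintro rfl
    rw [hr, hr', Finset.inter_self] at hc
    rw [Δ.card_eq _ ha] at hc
    omega

/-- The sum over the third vertices. -/
theorem sum_one {p q r : E3} {F : E3 → ℝ} (hr : ({v, p, q, r} : Finset E3) ∈ Δ.tets)
    (h : ∀ a, a ≠ r → ({v, p, q, a} : Finset E3) ∈ Δ.tets → F a = 0) :
    ∑ a ∈ Δ.vertices, F a * opw Δ v p q a = F r * opw Δ v p q r := by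
  refine Finset.sum_eq_single r (fun a _ har => ?_) fun hn => absurd (s2_mem_VV Δ v hr) hn
  by_cases ha : ({v, p, q, a} : Finset E3) ∈ Δ.tets
  · rw [h a har ha, zero_mul]
  · rw [opw_zero Δ v ha, mul_zero]

/-- A solution of the cubic system on an open star which is killed by a contraction vanishes if it
is constant around the edges on which the form vanishes. -/
theorem open_zero (ho : Δ.OpenStar v) {s : E3 → E3 → ℝ} (hs : s ∈ Δ.cubicS v) {f : E3 →ₗ[ℝ] ℝ}
    (hf : Cw Δ v f s = 0)
    (hbad : ∀ a p q, ({v, a, p, q} : Finset E3) ∈ Δ.tets → f (a - v) = 0 → s a p = s a q) :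
    s = 0 := by
  have hT := isFan Δ
  have core : ∀ p q r, ({v, p, q, r} : Finset E3) ∈ Δ.tets → s p q = 0 →
      (∀ a, a ≠ r → ({v, p, q, a} : Finset E3) ∈ Δ.tets → s p a = 0) →
      s p r = 0 ∧ s q r = 0 := by
    intro p q r ht hpq hh
    have h3 := hs.2.2.1 p q r ht
    have h4 := hs.1 r p
    by_cases hfr : f (r - v) = 0
    · have ht' : ({v, r, p, q} : Finset E3) ∈ Δ.tets := by
        have : ({v, r, p, q} : Finset E3) = {v, p, q, r} := by ext x; simp; tauto
        rw [this]; exact ht
      have h5 := hbad r p q ht' hfr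
      have h6 := hs.1 r q
      constructor <;> linarith
    · have h5 := congrFun (congrFun hf p) q
      unfold Cw at h5
      rw [hpq] at h5
      rw [sum_one Δ v ht (F := fun a => f (a - v) * s p a)
        (fun a har hat => by simp only [hh a har hat, mul_zero])] at h5
      simp only [mul_zero, zero_mul, sub_zero, zero_add, Pi.zero_apply] at h5
      have h6 : s p r = 0 := by
        rcases mul_eq_zero.1 h5 with h | h
        · exact (mul_eq_zero.1 h).resolve_left hfr
        · exact absurd h (opw_pos Δ v ht).ne'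
      constructor
      · exact h6
      · linarith
  have all : ∀ t ∈ Δ.tets, v ∈ t → ∀ x ∈ t, ∀ y ∈ t, s x y = 0 := by
    have hv1 : ∀ y, s v y = 0 := fun y => hs.2.1 v y (by
      intro hi
      have := hi.1.1
      have h2 : ({v, v, y} : Finset E3).card ≤ 2 := by
        rw [Finset.insert_eq_of_mem (by simp)]; exact Finset.card_le_two
      omega)
    have hv2 : ∀ y, s y v = 0 := fun y => by rw [hs.1]; exact hv1 y
    have hd : ∀ y, s y y = 0 := fun y => hs.2.1 y y (by
      intro hi
      have := hi.1.1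
      have h2 : ({v, y, y} : Finset E3).card ≤ 2 := by
        rw [Finset.insert_eq_of_mem (a := y) (by simp)]; exact Finset.card_le_two
      omega)
    have mk : ∀ p q r, s p q = 0 → s p r = 0 → s q r = 0 →
        ∀ x ∈ ({v, p, q, r} : Finset E3), ∀ y ∈ ({v, p, q, r} : Finset E3), s x y = 0 := by
      intro p q r h1 h2 h3 x hx y hy
      simp only [Finset.mem_insert, Finset.mem_singleton] at hx hy
      rcases hx with rfl | rfl | rfl | rfl
      · exact hv1 y
      · rcases hy with rfl | rfl | rfl | rfl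
        · exact hv2 _
        · exact hd _
        · exact h1
        · exact h2
      · rcases hy with rfl | rfl | rfl | rfl
        · exact hv2 _
        · rw [hs.1]; exact h1
        · exact hd _
        · exact h3
      · rcases hy with rfl | rfl | rfl | rfl
        · exact hv2 _
        · rw [hs.1]; exact h2
        · rw [hs.1]; exact h3
        · exact hd _
    refine open_induction Δ v ho (fun t => ∀ x ∈ t, ∀ y ∈ t, s x y = 0) ?_ ?_
    · intro p q r ht hu
      obtain ⟨g1, g2, g3, g4, g5, g6⟩ := four_ne hT ht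
      have hpq : s p q = 0 := by
        refine hs.2.1 p q fun hi => ?_
        obtain ⟨_, t1, ht1, t2, ht2, hne, hs1, hs2⟩ := hi
        exact hne ((hu t1 ht1 hs1).trans (hu t2 ht2 hs2).symm)
      obtain ⟨h1, h2⟩ := core p q r ht hpq (by
        intro a har hat
        exfalso
        have h := hu _ hat (by intro x; simp; tauto)
        have ha : a ∈ ({v, p, q, r} : Finset E3) := by rw [← h]; simp
        obtain ⟨_, _, i3, _, i5, i6⟩ := four_ne hT hat
        simp only [Finset.mem_insert, Finset.mem_singleton] at ha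
        rcases ha with h | h | h | h
        · exact i3 h.symm
        · exact i5 h.symm
        · exact i6 h.symm
        · exact har h)
      exact mk p q r hpq h1 h2
    · intro p q r r' ht ht' hrr hZ
      have hpq : s p q = 0 := hZ p (by simp) q (by simp)
      obtain ⟨h1, h2⟩ := core p q r' ht' hpq (by
        intro a har hat
        rcases s2_third Δ v hrr ht ht' hat with h | h
        · rw [h]; exact hZ p (by simp) r (by simp)
        · exact absurd h har)
      exact mk p q r' hpq h1 h2
  funext p q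
  by_cases hi : Δ.IsInner {v, p, q}
  · obtain ⟨t, ht, hst⟩ := hi.1.2
    exact all t ht (hst (by simp)) p (hst (by simp)) q (hst (by simp))
  · exact hs.2.1 p q hi

/-- A form which does not vanish on the edges at `v`. -/
theorem exists_generic : ∃ f : E3 →ₗ[ℝ] ℝ, ∀ a ∈ Δ.vertices, a ≠ v → f (a - v) ≠ 0 := by
  obtain ⟨f, hf⟩ := Module.exists_dual_forall_apply_ne_zero (K := ℝ) (M := E3)
    (ι := {a : E3 // a ∈ Δ.vertices.erase v}) (fun a => a.1 - v)
    (fun a => sub_ne_zero.2 (Finset.ne_of_mem_erase a.2))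
  exact ⟨f, fun a ha hav => hf ⟨a, Finset.mem_erase.2 ⟨hav, ha⟩⟩⟩

/-- Open stars: `c_v ≤ q_v`. -/
theorem open_cubic_le (ho : Δ.OpenStar v) :
    Module.finrank ℝ (Δ.cubicS v) ≤ Module.finrank ℝ (Δ.quadS v) := by
  obtain ⟨f, hf⟩ := exists_generic Δ v
  have hF : Function.Injective (CwL Δ v f) := by
    rw [← LinearMap.ker_eq_bot, LinearMap.ker_eq_bot']
    intro s hs
    apply Subtype.ext
    refine open_zero Δ v ho s.2 (f := f) (congrArg Subtype.val hs) fun a p q ht h0 => ?_
    obtain ⟨g1, _⟩ := four_ne (isFan Δ) ht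
    exact absurd h0 (hf a (mem_VV.2 ⟨_, ht, by simp⟩) g1.symm)
  exact LinearMap.finrank_le_finrank_of_injective hF

/-- Open stars: `h_v ≤ c_v`. -/
theorem open_quartic_le (ho : Δ.OpenStar v) :
    Module.finrank ℝ (Δ.quarticS v) ≤ Module.finrank ℝ (Δ.cubicS v) := by
  have hT := isFan Δ
  obtain ⟨f, hf⟩ := exists_generic Δ v
  have hF : Function.Injective (HwL Δ v f) := by
    rw [← LinearMap.ker_eq_bot, LinearMap.ker_eq_bot']
    rintro ⟨θ, hθ⟩ hs
    apply Subtype.ext
    have hH : Hw v f θ = 0 := congrArg Subtype.val hs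
    have hH' : ∀ p q, f (p - v) * θ p q + f (q - v) * θ q p = 0 := fun p q =>
      congrFun (congrFun hH p) q
    obtain ⟨h1, h2, h3, h4⟩ := hθ
    have hv1 : ∀ y, θ v y = 0 := fun y => h1 v y (by
      intro hi
      have := hi.1.1
      have h2 : ({v, v, y} : Finset E3).card ≤ 2 := by
        rw [Finset.insert_eq_of_mem (by simp)]; exact Finset.card_le_two
      omega)
    have hv2 : ∀ y, θ y v = 0 := fun y => h1 y v (by
      intro hi
      have := hi.1.1
      have h2 : ({v, y, v} : Finset E3).card ≤ 2 := by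
        rw [Finset.insert_eq_of_mem (a := v) (by simp)]; exact Finset.card_le_two
      omega)
    have hd : ∀ y, θ y y = 0 := fun y => h1 y y (by
      intro hi
      have := hi.1.1
      have h2 : ({v, y, y} : Finset E3).card ≤ 2 := by
        rw [Finset.insert_eq_of_mem (a := y) (by simp)]; exact Finset.card_le_two
      omega)
    have core : ∀ p q r, ({v, p, q, r} : Finset E3) ∈ Δ.tets → θ p q = 0 → θ q p = 0 →
        ∀ x ∈ ({v, p, q, r} : Finset E3), ∀ y ∈ ({v, p, q, r} : Finset E3), θ x y = 0 := by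
      intro p q r ht hpq hqp
      obtain ⟨g1, g2, g3, g4, g5, g6⟩ := four_ne hT ht
      have a1 : θ p r = 0 := by have := h2 p q r ht; linarith
      have a2 : θ q r = 0 := by
        have := h2 q p r (by rw [← s2_swap_tet]; exact ht); linarith
      have hfr : f (r - v) ≠ 0 := hf r (mem_VV.2 ⟨_, ht, by simp⟩) g3.symm
      have a3 : θ r p = 0 := by
        have := hH' p r
        rw [a1, mul_zero, zero_add] at this
        exact (mul_eq_zero.1 this).resolve_left hfr
      have a4 : θ r q = 0 := by
        have := hH' q r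
        rw [a2, mul_zero, zero_add] at this
        exact (mul_eq_zero.1 this).resolve_left hfr
      intro x hx y hy
      simp only [Finset.mem_insert, Finset.mem_singleton] at hx hy
      rcases hx with rfl | rfl | rfl | rfl
      · exact hv1 y
      · rcases hy with rfl | rfl | rfl | rfl
        · exact hv2 _
        · exact hd _
        · exact hpq
        · exact a1
      · rcases hy with rfl | rfl | rfl | rfl
        · exact hv2 _
        · exact hqp
        · exact hd _
        · exact a2
      · rcases hy with rfl | rfl | rfl | rfl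
        · exact hv2 _
        · exact a3
        · exact a4
        · exact hd _
    have all : ∀ t ∈ Δ.tets, v ∈ t → ∀ x ∈ t, ∀ y ∈ t, θ x y = 0 := by
      refine open_induction Δ v ho (fun t => ∀ x ∈ t, ∀ y ∈ t, θ x y = 0) ?_ ?_
      · intro p q r ht hu
        have hni : ¬ Δ.IsInner {v, p, q} := by
          rintro ⟨_, t1, ht1, t2, ht2, hne, hs1, hs2⟩
          exact hne ((hu t1 ht1 hs1).trans (hu t2 ht2 hs2).symm)
        exact core p q r ht (h1 p q hni) (h1 q p (by rwa [s2_swap_face]))
      · intro p q r r' ht ht' hrr hZ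
        exact core p q r' ht' (hZ p (by simp) q (by simp)) (hZ q (by simp) p (by simp))
    funext p q
    by_cases hi : Δ.IsInner {v, p, q}
    · obtain ⟨t, ht, hst⟩ := hi.1.2
      exact all t ht (hst (by simp)) p (hst (by simp)) q (hst (by simp))
    · exact h1 p q hi
  exact LinearMap.finrank_le_finrank_of_injective hF

theorem Cw_linL (f : E3 →ₗ[ℝ] ℝ) (s : Δ.cubicS v) :
    CwL Δ v f s = ∑ i, f (Pi.single i 1) • CwL Δ v (prj i) s := by
  apply Subtype.ext
  rw [AddSubmonoidClass.coe_finset_sum]
  funext p q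
  rw [Finset.sum_apply, Finset.sum_apply]
  exact Cw_lin Δ v f s.1 p q

/-- Open stars with `q_v ≤ 1` and without singular edges: `c_v = 0`. -/
theorem open_one (ho : Δ.OpenStar v) (hq : Module.finrank ℝ (Δ.quadS v) ≤ 1)
    (hns : ∀ a, ¬ Δ.IsSingular {v, a}) : Module.finrank ℝ (Δ.cubicS v) = 0 := by
  have hT := isFan Δ
  obtain ⟨φ, hφ⟩ : ∃ φ : Δ.quadS v →ₗ[ℝ] ℝ, Function.Injective φ := by
    rcases Nat.le_one_iff_eq_zero_or_eq_one.1 hq with h | h
    · haveI : Subsingleton (Δ.quadS v) := Module.finrank_zero_iff.1 h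
      exact ⟨0, Function.injective_of_subsingleton _⟩
    · have e := LinearEquiv.ofFinrankEq (R := ℝ) (Δ.quadS v) ℝ (by rw [h, Module.finrank_self])
      exact ⟨e.toLinearMap, e.injective⟩
  rw [Module.finrank_zero_iff]
  refine ⟨fun s s' => ?_⟩
  have zero : ∀ s : Δ.cubicS v, s = 0 := by
    intro s
    set e : E3 := ∑ i, φ (CwL Δ v (prj i) s) • Pi.single i 1 with he
    have hfe : ∀ f : E3 →ₗ[ℝ] ℝ, f e = φ (CwL Δ v f s) := by
      intro f
      rw [Cw_linL, he, map_sum, map_sum]
      refine Finset.sum_congr rfl fun i _ => ?_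
      rw [map_smul, map_smul, smul_eq_mul, smul_eq_mul, mul_comm]
    have hker : ∀ f : E3 →ₗ[ℝ] ℝ, f e = 0 → Cw Δ v f s.1 = 0 := by
      intro f hf
      rw [hfe] at hf
      have : CwL Δ v f s = 0 := hφ (by rw [hf, map_zero])
      exact congrArg Subtype.val this
    -- a form which vanishes at `e` and only where it must
    haveI : Finite {a : E3 // a ∈ Δ.vertices ∧ a - v ∉ Submodule.span ℝ {e}} :=
      Set.Finite.subset Δ.vertices.finite_toSet fun a ha => ha.1
    obtain ⟨f, hfe0, hf⟩ := Module.Dual.exists_forall_mem_ne_zero_of_forall_exists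
      (ι := {a : E3 // a ∈ Δ.vertices ∧ a - v ∉ Submodule.span ℝ {e}}) (K := ℝ)
      (M := Module.Dual ℝ E3) (LinearMap.ker (Module.Dual.eval ℝ E3 e))
      (fun a => Module.Dual.eval ℝ E3 (a.1 - v)) (by
        rintro ⟨a, ha, hae⟩
        obtain ⟨g, hg, hge⟩ := Submodule.exists_le_ker_of_notMem hae
        exact ⟨g, LinearMap.mem_ker.1 (hge (Submodule.mem_span_singleton_self e)), hg⟩)
    have hfe1 : f e = 0 := hfe0
    apply Subtype.ext
    refine open_zero Δ v ho s.2 (f := f) (hker f hfe1) fun a p q ht h0 => ?_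
    obtain ⟨g1, g2, g3, g4, g5, g6⟩ := four_ne hT ht
    have hae : a - v ∈ Submodule.span ℝ {e} := by
      by_contra hn
      exact hf ⟨a, mem_VV.2 ⟨_, ht, by simp⟩, hn⟩ h0
    obtain ⟨β, hβ⟩ := Submodule.mem_span_singleton.1 hae
    refine alt_const Δ v s.2 g1
      (fun hS => hns a ((isSingular_pair Δ ht (by simp) (by simp) g1).2 hS))
      (fun g hg q => ?_) ht
    have hβ0 : β ≠ 0 := by
      rintro rfl
      rw [zero_smul] at hβ
      exact g1 (sub_eq_zero.1 hβ.symm).symm
    have hge : g e = 0 := by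
      rw [← hβ, map_smul, smul_eq_mul] at hg
      exact (mul_eq_zero.1 hg).resolve_left hβ0
    rw [hker g hge]
    rfl
  rw [zero s, zero s']

/-- Open stars with `q_v ≤ 1`. -/
theorem open_formula (ho : Δ.OpenStar v) (hq : Module.finrank ℝ (Δ.quadS v) ≤ 1) :
    Module.finrank ℝ (Δ.cubicS v) = Δ.singularAt v ∧
      Module.finrank ℝ (Δ.quarticS v) = Δ.singularAt v := by
  have h1 := quartic_ge Δ blk_S2 blk_S3 v
  have h2 := open_quartic_le Δ v ho
  have h3 := open_cubic_le Δ v ho
  by_cases hs : Δ.singularAt v = 0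
  · have hns : ∀ a, ¬ Δ.IsSingular {v, a} := by
      intro a ha
      have hfin : {e | Δ.IsSingular e ∧ v ∈ e}.Finite := by
        refine Set.Finite.subset (FF Δ.tets 2).finite_toSet fun e he => ?_
        rw [← faces_eq]
        exact he.1.1
      have := (Set.ncard_eq_zero hfin).1 hs
      have hmem : ({v, a} : Finset E3) ∈ {e | Δ.IsSingular e ∧ v ∈ e} := ⟨ha, by simp⟩
      rw [this] at hmem
      exact hmem
    have h4 := open_one Δ v ho hq hns
    omega
  · omega

end Pool.CB
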